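import Mathlib
import Pool.Agent.H84.W.Str
import Pool.Agent.H85.W.Loc

set_option autoImplicit false
open Finset

/-! # Runs of the in-plane step through a set of tiles

`Rn F L S x y` : the in-plane strand (`ip F L`, helper84) leads from the directed corner `x` to the directed
corner `y`, all tiles which it passes on the way belong to `S`. -/

namespace Pool.Agent.H43.W

open Pool.Agent.H75.Perc Pool.Agent.H75.TwoArm
open Pool.Agent.H13.W (eW eE eS eN SG TJ SG_adj lab_ne_plab not_TJ_eW not_TJ_eE of_side)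
open Pool.Agent.H84.W
open Pool.Agent.H85.W (Fw)
open Pool.Agent.H81.G1 (Dir)

/-- run of the in-plane step through the tiles of `S` -/
def Rn (F L : Finset (ℤ × ℤ)) (S : Set (ℤ × ℤ)) (x y : DC) : Prop :=
  ∃ n : ℕ, (ip F L)^[n] x = y ∧ ∀ i < n, tl ((ip F L)^[i] x) ∈ S

variable {F L : Finset (ℤ × ℤ)} {S S' Λ : Set (ℤ × ℤ)} {x y z : DC} {c c' d : ℤ × ℤ}

namespace Rn

lemma refl (x : DC) : Rn F L S x x := ⟨0, rfl, fun i hi => absurd hi (Nat.not_lt_zero i)⟩

lemma trans (h : Rn F L S x y) (h' : Rn F L S y z) : Rn F L S x z := by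
  obtain ⟨n, h1, h2⟩ := h
  obtain ⟨m, g1, g2⟩ := h'
  refine ⟨m + n, by rw [Function.iterate_add_apply, h1, g1], fun i hi => ?_⟩
  rcases Nat.lt_or_ge i n with h3 | h3
  · exact h2 i h3
  · obtain ⟨k, rfl⟩ := Nat.exists_eq_add_of_le h3
    rw [Nat.add_comm n k, Function.iterate_add_apply, h1]
    exact g2 k (by omega)

lemma step (h : tl x ∈ S) : Rn F L S x (ip F L x) :=
  ⟨1, rfl, fun i hi => by
    have : i = 0 := by omega
    subst this; exact h⟩

lemma inOrb (h : Rn F L S x y) : InOrb (ip F L) x y := by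
  obtain ⟨n, h1, -⟩ := h; exact ⟨n, h1⟩

lemma mono (h : Rn F L S x y) (hS : S ⊆ S') : Rn F L S' x y := by
  obtain ⟨n, h1, h2⟩ := h
  exact ⟨n, h1, fun i hi => hS (h2 i hi)⟩

/-- reversal -/
lemma rev (h : Rn F L S x y) : Rn F L S (rv y) (rv x) := by
  obtain ⟨n, h1, h2⟩ := h
  induction n generalizing y with
  | zero => subst h1; exact Rn.refl _
  | succ n ih =>
    subst h1
    rw [Function.iterate_succ_apply']
    refine Rn.trans ?_ (ih rfl fun i hi => h2 i (by omega))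
    have e := ip_rv F L ((ip F L)^[n] x)
    refine ⟨1, e, fun i hi => ?_⟩
    have : i = 0 := by omega
    subst this
    show tl (rv (ip F L ((ip F L)^[n] x))) ∈ S
    rw [tl_rv_ip]
    exact h2 n (by omega)

/-- the first exit is unique -/
lemma uniq {y' : DC} (h : Rn F L S x y) (h' : Rn F L S x y') (hy : tl y ∉ S) (hy' : tl y' ∉ S) :
    y = y' := by
  obtain ⟨n, rfl, h2⟩ := h
  obtain ⟨m, rfl, g2⟩ := h'
  have : n = m := by
    rcases lt_trichotomy n m with h | h | h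
    · exact absurd (g2 n h) hy
    · exact h
    · exact absurd (h2 m h) hy'
  rw [this]

lemma head (h : Rn F L S x y) : x = y ∨ (tl x ∈ S ∧ Rn F L S (ip F L x) y) := by
  obtain ⟨n, h1, h2⟩ := h
  cases n with
  | zero => exact Or.inl h1
  | succ n =>
    refine Or.inr ⟨h2 0 (by omega), n, by rwa [Function.iterate_succ_apply] at h1, fun i hi => ?_⟩
    have := h2 (i + 1) (by omega)
    rwa [Function.iterate_succ_apply] at this

lemma tail (h : Rn F L S x y) : x = y ∨ ∃ u, Rn F L S x u ∧ tl u ∈ S ∧ y = ip F L u := by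
  obtain ⟨n, h1, h2⟩ := h
  cases n with
  | zero => exact Or.inl h1
  | succ n =>
    refine Or.inr ⟨(ip F L)^[n] x, ⟨n, rfl, fun i hi => h2 i (by omega)⟩, h2 n (by omega), ?_⟩
    rw [← h1, Function.iterate_succ_apply']

/-- the tile passed last -/
lemma tail_tl (h : Rn F L S x y) : x = y ∨ tl (rv y) ∈ S := by
  rcases h.tail with h | ⟨u, -, h2, rfl⟩
  · exact Or.inl h
  · right; rw [tl_rv_ip]; exact h2

/-- the direction bit does not change off the string -/
lemma bit (hS : ∀ e ∈ S, e ∉ F) (h : Rn F L S x y) : y.2 = x.2 := by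
  obtain ⟨n, h1, h2⟩ := h
  induction n generalizing y with
  | zero => subst h1; rfl
  | succ n ih =>
    subst h1
    rw [Function.iterate_succ_apply', ← ih rfl fun i hi => h2 i (by omega)]
    have h3 := hS _ (h2 n (by omega))
    generalize (ip F L)^[n] x = v at h3
    obtain ⟨c, b⟩ := v
    unfold tl at h3
    cases b
    · have h4 : plab c ∉ F := by simpa using h3
      simp [ip, h4]
    · have h4 : lab c ∉ F := by simpa using h3
      simp [ip, h4]

/-- strands off the string are runs -/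
lemma of_Fw (hS : ∀ e ∈ S, e ∉ F) (h : Fw L S c c') : Rn F L S (c, true) (c', true) := by
  obtain ⟨n, h1, h2⟩ := h
  have key : ∀ i, i ≤ n → (ip F L)^[i] (c, true) = ((nx L)^[i] c, true) := by
    intro i
    induction i with
    | zero => intro _; rfl
    | succ i ih =>
      intro hi
      rw [Function.iterate_succ_apply', ih (by omega), Function.iterate_succ_apply']
      have h3 := hS _ (h2 i (by omega))
      simp [ip, h3]
  refine ⟨n, by rw [key n le_rfl, h1], fun i hi => ?_⟩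
  rw [key i hi.le]
  exact h2 i hi

lemma of_Fw' (hS : ∀ e ∈ S, e ∉ F) (h : Fw L S c c') : Rn F L S (c', false) (c, false) :=
  (of_Fw hS h).rev

end Rn

/-! ### The step and the strand graph -/

lemma adj_nat (hx : tl x ∈ Λ) (hF : tl x ∉ F) : (SG Λ ↑F L).Adj x.1 (ip F L x).1 := by
  obtain ⟨c, b⟩ := x
  cases b
  · have h1 : plab c ∉ F := hF
    have e : ip F L (c, false) = (pv L c, false) := by simp [ip, h1]
    rw [e]
    refine ⟨plab c, hx, Or.inr ⟨by rwa [mem_coe], Or.inr ⟨lab_pv' L c, nx_pv' L c⟩⟩⟩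
  · have h1 : lab c ∉ F := hF
    have e : ip F L (c, true) = (nx L c, true) := by simp [ip, h1]
    rw [e]
    exact ⟨lab c, hx, Or.inr ⟨by rwa [mem_coe], Or.inl ⟨rfl, rfl⟩⟩⟩

lemma adj_NS {e : ℤ × ℤ} (ho : (e.1 + e.2) % 2 = 1) (he : e ∈ Λ) (hF : e ∈ F) {r : Dir}
    (hr : r = .N ∨ r = .S) : (SG Λ ↑F L).Adj (ent e r).1 (ip F L (ent e r)).1 := by
  rw [ip_cross ho hF]
  rcases hr with rfl | rfl
  · exact ⟨e, he, Or.inl ⟨by rwa [mem_coe], ho, Or.inr ⟨rfl, rfl⟩⟩⟩
  · exact ⟨e, he, Or.inl ⟨by rwa [mem_coe], ho, Or.inl ⟨rfl, rfl⟩⟩⟩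

lemma rv_fst_eq {x y : DC} (h : x.1 = y.1) : x = y ∨ x = rv y := or_rv y h

lemma tl_cases (x : DC) : (tl x = lab x.1 ∧ tl (rv x) = plab x.1) ∨
    (tl x = plab x.1 ∧ tl (rv x) = lab x.1) := by
  obtain ⟨c, b⟩ := x
  cases b
  · right; exact ⟨rfl, rfl⟩
  · left; exact ⟨rfl, rfl⟩

/-- one of the two tiles is in `Λ` -/
lemma tl_or (h : lab x.1 ∈ Λ ∨ plab x.1 ∈ Λ) : tl x ∈ Λ ∨ tl (rv x) ∈ Λ := by
  rcases tl_cases x with ⟨h1, h2⟩ | ⟨h1, h2⟩ <;> rw [h1, h2]
  · exact h
  · exact h.symm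

lemma tl_out (h : tl x ∉ Λ) : lab x.1 ∉ Λ ∨ plab x.1 ∉ Λ := by
  rcases tl_cases x with ⟨h1, -⟩ | ⟨h1, -⟩ <;> rw [h1] at h
  · exact Or.inl h
  · exact Or.inr h

end Pool.Agent.H43.W
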