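import Mathlib
import Pool.Agent.H43.W.Run
import Pool.Agent.H74.W.Tri6

set_option autoImplicit false
open Finset

/-! # T8: the frozen string and the named ends

`Λ` = labels of the box (`F = srow t m ⊆ Λ` the string from the tile `t` to the right side of the box), `L` = open
labels off the string, inside and outside of the box. Names `i` (`Mk i`) of the ends of the strands on the
boundary of the box, corner `be i`; planar arcs `μ` outside of the box, three unmatched names `kk`, `p`, `q`.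
`kk` is joined to the root `R` of the string, the target corner `ct` is on the strand from `q` to `p`
outside of the box. `GT` = strand graph of the box with the deleted row `F` + the arcs. Then the moving end
`z = eW t` is joined to exactly one of `be kk`, `be q`, `be p` in `GT`, and this decides how the in-plane
strand of the root passes `ct` (`TW.val_eq`). -/

namespace Pool.Agent.H43.W

open Pool.Agent.H75.Perc hiding tau
open Pool.Agent.H75.TwoArm
open Pool.Agent.H13.W (eW eE eS eN SG TJ SG_adj lab_ne_plab not_TJ_eW not_TJ_eE of_side SG_deg2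
  isEnd_of_notMem isEnd_eW)
open Pool.Agent.H99.W (Deg2 IsEnd ends_two)
open Pool.Agent.H84.W
open Pool.Agent.H81.G1 (Dir)
open Pool.Agent.H74.W (tau tau_cube tau_ne_one)
open Pool.Agent.Q1 (DCo Ec)

variable {ι : Type*}

/-- the arcs outside of the box as edges -/
def AG (Mk : ι → Prop) (μ : ι → ι) (be : ι → ℤ × ℤ) : SimpleGraph (ℤ × ℤ) :=
  SimpleGraph.fromRel fun a b => ∃ i, Mk i ∧ a = be i ∧ b = be (μ i)

/-- the last corner of the string -/
def se (t : ℤ × ℤ) (m : ℕ) : ℤ × ℤ := (wst (t.1 + (m : ℤ), t.2 + (m : ℤ))).1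

/-- **The world of a string** with named ends. -/
structure TW (Λ : Set (ℤ × ℤ)) (t : ℤ × ℤ) (m : ℕ) (L : Finset (ℤ × ℤ)) (Mk : ι → Prop) (μ : ι → ι)
    (be : ι → ℤ × ℤ) (kk p q : ι) (R : DC) (k : ℕ) (ct : ℤ × ℤ) : Prop where
  odd : (t.1 + t.2) % 2 = 1
  pos : 0 < m
  sub : ∀ e ∈ srow t m, e ∈ Λ
  west : (t.1 - 1, t.2 - 1) ∈ Λ
  east : (t.1 + (m : ℤ), t.2 + (m : ℤ)) ∉ Λ
  inj : ∀ i j, Mk i → Mk j → be i = be j → i = j
  mm : ∀ i, Mk i → Mk (μ i)
  inv : ∀ i, Mk i → μ (μ i) = i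
  fx : ∀ i, Mk i → (μ i = i ↔ i = kk ∨ i = p ∨ i = q)
  nk : Mk kk
  np : Mk p
  nq : Mk q
  kp : kk ≠ p
  kq : kk ≠ q
  pq : p ≠ q
  /-- a name has a tile in the box -/
  nb : ∀ i, Mk i → lab (be i) ∈ Λ ∨ plab (be i) ∈ Λ
  /-- and a tile outside -/
  no : ∀ i, Mk i → lab (be i) ∉ Λ ∨ plab (be i) ∉ Λ
  ns : ∀ i, Mk i → be i ≠ se t m
  /-- inside: the boundary corners of a closed set of corners are names -/
  ins : ∃ I : Set (ℤ × ℤ), eW t ∈ I ∧ (∀ i, Mk i → be i ∈ I) ∧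
    (∀ c ∈ I, ∀ d, (SG Λ ↑(srow t m) L).Adj c d → d ∈ I) ∧
    ∀ c ∈ I, (lab c ∉ Λ ∨ plab c ∉ Λ) → ∃ i, Mk i ∧ c = be i
  arc : ∀ i, Mk i → μ i ≠ i → ∃ d, Rn (srow t m) L Λᶜ (be i, d) (be (μ i), d)
  ext : Rn (srow t m) L Λᶜ (be kk, R.2) R
  root : Root (srow t m) L (t.1 + (m : ℤ), t.2 + (m : ℤ)) R k
  rout : ∀ i < k, tl ((ip (srow t m) L)^[i] R) ∉ Λ
  R1 : lab R.1 ∉ Λ
  R2 : plab R.1 ∉ Λ
  tq : Rn (srow t m) L Λᶜ (be q, true) (ct, true)
  tp : Rn (srow t m) L Λᶜ (ct, true) (be p, true)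
  c1 : lab ct ∉ Λ
  c2 : plab ct ∉ Λ

namespace TW

variable {Λ : Set (ℤ × ℤ)} {t : ℤ × ℤ} {m : ℕ} {L : Finset (ℤ × ℤ)} {Mk : ι → Prop} {μ : ι → ι}
  {be : ι → ℤ × ℤ} {kk p q : ι} {R : DC} {k : ℕ} {ct : ℤ × ℤ}

/-- the graph of the box and the arcs -/
def G (_ : TW Λ t m L Mk μ be kk p q R k ct) : SimpleGraph (ℤ × ℤ) :=
  SG Λ ↑(srow t m) L ⊔ AG Mk μ be

variable (T : TW Λ t m L Mk μ be kk p q R k ct)
include T

lemma adj_arc {i : ι} (hi : Mk i) (h : μ i ≠ i) : T.G.Adj (be i) (be (μ i)) := by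
  right
  rw [AG, SimpleGraph.fromRel_adj]
  exact ⟨fun e => h (T.inj _ _ hi (T.mm i hi) e).symm, Or.inl ⟨i, hi, rfl, rfl⟩⟩

lemma arc_of {c d : ℤ × ℤ} (h : (AG Mk μ be).Adj c d) :
    ∃ i, Mk i ∧ μ i ≠ i ∧ c = be i ∧ d = be (μ i) := by
  rw [AG, SimpleGraph.fromRel_adj] at h
  obtain ⟨hne, ⟨i, hi, rfl, rfl⟩ | ⟨i, hi, rfl, rfl⟩⟩ := h
  · exact ⟨i, hi, fun e => hne (by rw [e]), rfl, rfl⟩
  · refine ⟨μ i, T.mm i hi, ?_, rfl, ?_⟩
    · rw [T.inv i hi]
      intro e
      exact hne (by rw [← e])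
    · rw [T.inv i hi]

/-- the tiles at a name -/
lemma tl_name {i : ι} (hi : Mk i) (d : Bool) : tl (be i, d) ∈ Λ ∨ tl (rv (be i, d)) ∈ Λ :=
  tl_or (x := (be i, d)) (T.nb i hi)

lemma start {i : ι} (hi : Mk i) {d : Bool} {y : DC} (h : Rn (srow t m) L Λᶜ (be i, d) y)
    (hne : (be i, d) ≠ y) : tl (be i, d) ∉ Λ ∧ tl (rv (be i, d)) ∈ Λ := by
  rcases h.head with h | ⟨h, -⟩
  · exact absurd h hne
  · exact ⟨h, (T.tl_name hi d).resolve_left h⟩

lemma stop {i : ι} (hi : Mk i) {d : Bool} {x : DC} (h : Rn (srow t m) L Λᶜ x (be i, d))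
    (hne : x ≠ (be i, d)) : tl (be i, d) ∈ Λ := by
  rcases h.tail_tl with h | h
  · exact absurd h hne
  · exact (T.tl_name hi d).resolve_right h

/-- a corner with both tiles outside is not a name -/
lemma ne_name {i : ι} (hi : Mk i) {c : ℤ × ℤ} (h1 : lab c ∉ Λ) (h2 : plab c ∉ Λ) : be i ≠ c := by
  rintro rfl
  exact (T.nb i hi).elim h1 h2

lemma kp_of {i : ι} (hi : Mk i) (h : μ i ≠ i) {j : ι} (hj : j = kk ∨ j = p ∨ j = q) (hj' : Mk j) :
    i ≠ j ∧ μ i ≠ j := by
  have e := (T.fx j hj').2 hj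
  constructor
  · rintro rfl; exact h e
  · rintro rfl
    rw [T.inv i hi] at e
    exact h e.symm

/-! ### The component of `z` -/

/-- a corner of the component of `z` has a tile in the box, and is a name if it is on the boundary -/
lemma comp_tile {c : ℤ × ℤ} (h : T.G.Reachable (eW t) c) : lab c ∈ Λ ∨ plab c ∈ Λ := by
  have hz : lab (eW t) ∈ Λ ∨ plab (eW t) ∈ Λ := by
    have ht : t ∈ Λ := T.sub t (by rw [mem_srow]; exact ⟨0, T.pos, by simp⟩)
    rcases of_side T.odd (eW t) (Or.inl rfl) with e | e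
    · left; rw [← e]; exact ht
    · right; rw [← e]; exact ht
  rw [SimpleGraph.reachable_iff_reflTransGen] at h
  induction h with
  | refl => exact hz
  | tail _ hadj _ =>
    rcases hadj with ⟨e, he, h⟩ | h
    · rcases h.label' with h | h
      · left; rw [← h]; exact he
      · right; rw [← h]; exact he
    · obtain ⟨i, hi, hne, -, rfl⟩ := T.arc_of h
      exact T.nb _ (T.mm i hi)

lemma comp_name {c : ℤ × ℤ} (h : T.G.Reachable (eW t) c) (hc : lab c ∉ Λ ∨ plab c ∉ Λ) :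
    ∃ i, Mk i ∧ c = be i := by
  obtain ⟨I, hz, hI, hcl, hout⟩ := T.ins
  refine hout c ?_ hc
  clear hc
  rw [SimpleGraph.reachable_iff_reflTransGen] at h
  induction h with
  | refl => exact hz
  | tail _ hadj ih =>
    rcases hadj with h | h
    · exact hcl _ ih _ h
    · obtain ⟨i, hi, hne, -, rfl⟩ := T.arc_of h
      exact hI _ (T.mm i hi)

/-- a corner of the component of `z`, not `z` and not a name, is touched by the graph of the box -/
lemma comp_adj {c : ℤ × ℤ} (h : T.G.Reachable (eW t) c) (hz : c ≠ eW t) (hn : ∀ i, Mk i → c ≠ be i) :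
    ∃ d e, e ∈ Λ ∧ TJ ↑(srow t m) L e c d := by
  rw [SimpleGraph.reachable_iff_reflTransGen] at h
  cases h with
  | refl => exact absurd rfl hz
  | tail _ hadj =>
    rcases hadj with ⟨e, he, h⟩ | h
    · exact ⟨_, e, he, h.symm⟩
    · obtain ⟨i, hi, hne, -, rfl⟩ := T.arc_of h
      exact absurd rfl (hn _ (T.mm i hi))

/-- the sides `W`, `E` of the tiles of the string: only `z` is in the component of `z` -/
lemma comp_str {c : ℤ × ℤ} (h : T.G.Reachable (eW t) c) {e : ℤ × ℤ} (he : e ∈ srow t m)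
    (hc : c = eW e ∨ c = eE e) : e = t ∧ c = eW t := by
  obtain ⟨i, hi, rfl⟩ := mem_srow.1 he
  -- the corner is `(t.1 + j, t.2 + j)` with `j ≤ m`
  obtain ⟨j, hj, hcj, hij⟩ : ∃ j : ℕ, j ≤ m ∧ c = (t.1 + (j : ℤ), t.2 + (j : ℤ)) ∧
      (j = i ∧ c = eW (t.1 + (i : ℤ), t.2 + (i : ℤ)) ∨ j = i + 1) := by
    rcases hc with rfl | rfl
    · exact ⟨i, hi.le, rfl, Or.inl ⟨rfl, rfl⟩⟩
    · refine ⟨i + 1, hi, ?_, Or.inr rfl⟩
      unfold eE
      refine Prod.ext ?_ ?_ <;> simp only <;> push_cast <;> ring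
  have h0 := T.odd
  rcases Nat.eq_zero_or_pos j with rfl | hj0
  · rcases hij with ⟨rfl, h1⟩ | h1
    · refine ⟨by simp, ?_⟩
      rw [h1]; simp
    · omega
  exfalso
  -- the two tiles at the corner
  have hW : (t.1 + (j : ℤ) - 1, t.2 + (j : ℤ) - 1) ∈ srow t m := by
    rw [mem_srow]
    refine ⟨j - 1, by omega, ?_⟩
    refine Prod.ext ?_ ?_ <;> simp only <;> omega
  have s1 : c = eE (t.1 + (j : ℤ) - 1, t.2 + (j : ℤ) - 1) := by
    rw [hcj]; unfold eE; refine Prod.ext ?_ ?_ <;> simp only <;> ring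
  have s2 : c = eW (t.1 + (j : ℤ), t.2 + (j : ℤ)) := hcj
  have l1 := of_side (e := (t.1 + (j : ℤ) - 1, t.2 + (j : ℤ) - 1)) (by simp only; omega) c
    (Or.inr (Or.inl s1))
  have l2 := of_side (e := (t.1 + (j : ℤ), t.2 + (j : ℤ))) (by simp only; omega) c (Or.inl s2)
  have hcz : c ≠ eW t := by
    rw [hcj]; unfold eW
    intro h1
    have := congrArg Prod.fst h1
    simp only at this
    omega
  have hnj : ∀ e' : ℤ × ℤ, e' ∈ Λ → ∀ d, ¬ TJ ↑(srow t m) L e' c d := by
    intro e' he' d hT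
    have h3 : e' = (t.1 + (j : ℤ) - 1, t.2 + (j : ℤ) - 1) ∨ e' = (t.1 + (j : ℤ), t.2 + (j : ℤ)) := by
      have hne : ((t.1 + (j : ℤ) - 1, t.2 + (j : ℤ) - 1) : ℤ × ℤ) ≠ (t.1 + (j : ℤ), t.2 + (j : ℤ)) := by
        intro h; have := congrArg Prod.fst h; simp only at this; omega
      rcases hT.label with h4 | h4 <;> rcases l1 with l1 | l1 <;> rcases l2 with l2 | l2
      all_goals first
        | (left; rw [h4, l1]; done)
        | (right; rw [h4, l2]; done)
        | (exact absurd (l1.trans l2.symm) hne)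
    rcases h3 with rfl | rfl
    · rw [s1] at hT
      exact not_TJ_eE (mem_coe.2 hW) hT
    · rcases Nat.lt_or_ge j m with h5 | h5
      · rw [s2] at hT
        exact not_TJ_eW (mem_coe.2 (mem_srow.2 ⟨j, h5, rfl⟩)) hT
      · have : j = m := le_antisymm hj h5
        subst this
        exact T.east he'
  rcases Nat.lt_or_ge j m with h5 | h5
  · -- inner corner of the string
    have hn : ∀ i, Mk i → c ≠ be i := by
      rintro i hi rfl
      have hWl := T.sub _ hW
      have hEl := T.sub _ (mem_srow.2 ⟨j, h5, rfl⟩)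
      have hne : ((t.1 + (j : ℤ) - 1, t.2 + (j : ℤ) - 1) : ℤ × ℤ) ≠ (t.1 + (j : ℤ), t.2 + (j : ℤ)) := by
        intro h; have := congrArg Prod.fst h; simp only at this; omega
      rcases l1 with l1 | l1 <;> rcases l2 with l2 | l2
      · exact hne (l1.trans l2.symm)
      · rw [l1] at hWl; rw [l2] at hEl
        rcases T.no i hi with h6 | h6
        · exact h6 hWl
        · exact h6 hEl
      · rw [l1] at hWl; rw [l2] at hEl
        rcases T.no i hi with h6 | h6
        · exact h6 hEl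
        · exact h6 hWl
      · exact hne (l1.trans l2.symm)
    obtain ⟨d, e', he', hT⟩ := T.comp_adj h hcz hn
    exact hnj e' he' d hT
  · have hjm : j = m := le_antisymm hj h5
    subst hjm
    have hse : c = se t j := by
      rw [s1]; rfl
    obtain ⟨d, e', he', hT⟩ := T.comp_adj h hcz (fun i hi h6 => T.ns i hi (h6.symm.trans hse))
    exact hnj e' he' d hT

/-! ### The corners before the first unmatched name -/

/-- the component of `z` and the strands of the arcs outside at its names -/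
def K0 (T : TW Λ t m L Mk μ be kk p q R k ct) (c : ℤ × ℤ) : Prop :=
  T.G.Reachable (eW t) c ∨ ∃ i d, Mk i ∧ μ i ≠ i ∧ T.G.Reachable (eW t) (be i) ∧
    Rn (srow t m) L Λᶜ (be i, d) (be (μ i), d) ∧
    ∃ u : DC, u.1 = c ∧ Rn (srow t m) L Λᶜ (be i, d) u ∧ Rn (srow t m) L Λᶜ u (be (μ i), d)

/-- leaving the set at an unmatched name -/
def Lv (T : TW Λ t m L Mk μ be kk p q R k ct) (x : DC) : Prop :=
  ∃ j, Mk j ∧ μ j = j ∧ x.1 = be j ∧ tl x ∉ Λ ∧ T.G.Reachable (eW t) (be j)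

lemma arc_ne {i : ι} (hi : Mk i) (h : μ i ≠ i) (d : Bool) : ((be i, d) : DC) ≠ (be (μ i), d) :=
  fun e => h (T.inj _ _ hi (T.mm i hi) (congrArg Prod.fst e)).symm

lemma stepA {x : DC} (h : T.G.Reachable (eW t) x.1) (hx : x ≠ ent t .W) :
    T.K0 (ip (srow t m) L x).1 ∨ T.Lv x := by
  by_cases hΛ : tl x ∈ Λ
  · left; left
    by_cases hF : tl x ∈ srow t m
    · have ho := odd_tl x
      obtain ⟨e, he⟩ : ∃ e, tl x = e := ⟨_, rfl⟩
      rw [he] at ho hF hΛ
      obtain ⟨r, rfl⟩ := eq_ent he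
      cases r with
      | W =>
        have h1 := T.comp_str h hF (Or.inl rfl)
        rw [h1.1] at hx
        exact absurd rfl hx
      | E =>
        have h1 := T.comp_str h hF (Or.inr rfl)
        have h2 := h1.2
        rw [h1.1] at h2
        have h3 : sd t .E = sd t .W := h2
        exact absurd (sd_inj h3) (fun h => by cases h)
      | N =>
        exact h.trans (SimpleGraph.Adj.reachable (Or.inl (adj_NS ho hΛ hF (Or.inl rfl))))
      | S =>
        exact h.trans (SimpleGraph.Adj.reachable (Or.inl (adj_NS ho hΛ hF (Or.inr rfl))))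
    · exact h.trans (SimpleGraph.Adj.reachable (Or.inl (adj_nat hΛ hF)))
  · obtain ⟨i, hi, hxi⟩ := T.comp_name h (tl_out hΛ)
    by_cases hμ : μ i = i
    · right; exact ⟨i, hi, hμ, hxi, hΛ, hxi ▸ h⟩
    · left; right
      obtain ⟨d, hr⟩ := T.arc i hi hμ
      have hne := T.arc_ne hi hμ d
      obtain ⟨s1, s2⟩ := T.start hi hr hne
      have hx : x = (be i, d) := by
        rcases rv_fst_eq (y := ((be i, d) : DC)) hxi with h | h
        · exact h
        · rw [h] at hΛ; exact absurd s2 hΛ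
      subst hx
      rcases hr.head with h1 | ⟨h1, h2⟩
      · exact absurd h1 hne
      · exact ⟨i, d, hi, hμ, h, hr, _, rfl, Rn.step h1, h2⟩

lemma step0 {x : DC} (h : T.K0 x.1) (hx : x ≠ ent t .W) :
    T.K0 (ip (srow t m) L x).1 ∨ T.Lv x := by
  rcases h with h | ⟨i, d, hi, hμ, hr, hl, u, hu, h1, h2⟩
  · exact T.stepA h hx
  · rcases rv_fst_eq hu.symm with e | e
    · subst e
      rcases h2.head with e2 | ⟨g1, g2⟩
      · refine T.stepA ?_ hx
        rw [e2]
        exact hr.trans (T.adj_arc hi hμ).reachable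
      · left; right
        exact ⟨i, d, hi, hμ, hr, hl, _, rfl, h1.trans (Rn.step g1), g2⟩
    · rcases h1.tail with e1 | ⟨v, g1, g2, g3⟩
      · refine T.stepA ?_ hx
        rw [← hu, ← e1]
        exact hr
      · left; right
        have e4 : ip (srow t m) L x = rv v := by rw [e, g3, ip_rv]
        refine ⟨i, d, hi, hμ, hr, hl, v, by rw [e4]; rfl, g1, ?_⟩
        exact (Rn.step g2).trans (g3 ▸ h2)

/-- a corner with both tiles outside on the strand of an arc -/
lemma out_K0 {c : ℤ × ℤ} (h1 : lab c ∉ Λ) (h2 : plab c ∉ Λ) (h : T.K0 c) :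
    ∃ i d, Mk i ∧ μ i ≠ i ∧ ∃ u : DC, u.1 = c ∧ Rn (srow t m) L Λᶜ u (be (μ i), d) ∧
      Rn (srow t m) L Λᶜ (rv u) (rv (be i, d)) ∧ tl (be (μ i), d) ∈ Λ ∧ tl (rv (be i, d)) ∈ Λ := by
  rcases h with h | ⟨i, d, hi, hμ, hr, hl, u, hu, g1, g2⟩
  · rcases T.comp_tile h with h | h
    · exact absurd h h1
    · exact absurd h h2
  · refine ⟨i, d, hi, hμ, u, hu, g2, g1.rev, ?_, ?_⟩
    · refine T.stop (T.mm i hi) g2 fun e => ?_
      exact T.ne_name (T.mm i hi) h1 h2 (by rw [← hu, e])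
    · refine (T.start hi g1 fun e => ?_).2
      exact T.ne_name hi h1 h2 (by rw [← hu, ← e])

/-- the run from the root into the string -/
lemma run_R : Rn (srow t m) L Λᶜ R (wst (t.1 + (m : ℤ), t.2 + (m : ℤ))) :=
  ⟨k, T.root.run, T.rout⟩

lemma last_mem : (t.1 + (m : ℤ) - 1, t.2 + (m : ℤ) - 1) ∈ srow t m := by
  rw [mem_srow]
  have := T.pos
  refine ⟨m - 1, by omega, ?_⟩
  refine Prod.ext ?_ ?_ <;> simp only <;> omega

lemma tl_wst : tl (wst (t.1 + (m : ℤ), t.2 + (m : ℤ))) = (t.1 + (m : ℤ) - 1, t.2 + (m : ℤ) - 1) := by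
  have := T.odd
  exact tl_ent (by simp only; omega) _

lemma tl_wst_mem : tl (wst (t.1 + (m : ℤ), t.2 + (m : ℤ))) ∈ Λ := by
  rw [T.tl_wst]
  exact T.sub _ T.last_mem

lemma not_K0_R : ¬ T.K0 R.1 := by
  intro h
  obtain ⟨i, d, hi, hμ, u, hu, h1, h2, h3, h4⟩ := T.out_K0 T.R1 T.R2 h
  have n3 : tl (be (μ i), d) ∉ Λᶜ := fun h => h h3
  have n4 : tl (rv (be i, d)) ∉ Λᶜ := fun h => h h4
  have n5 : tl (wst (t.1 + (m : ℤ), t.2 + (m : ℤ))) ∉ Λᶜ := fun h => h T.tl_wst_mem
  rcases rv_fst_eq hu.symm with e | e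
  · rw [← e] at h1
    exact T.ns (μ i) (T.mm i hi) (congrArg Prod.fst (h1.uniq T.run_R n3 n5))
  · rw [← e] at h2
    exact T.ns i hi (congrArg Prod.fst (h2.uniq T.run_R n4 n5))

lemma be_p_in : tl (be p, true) ∈ Λ :=
  T.stop T.np T.tp fun e => T.ne_name T.np T.c1 T.c2 (congrArg Prod.fst e).symm

lemma be_q_out : tl (be q, true) ∉ Λ ∧ tl (rv (be q, true)) ∈ Λ :=
  T.start T.nq T.tq fun e => T.ne_name T.nq T.c1 T.c2 (congrArg Prod.fst e)

lemma be_k_out : tl (be kk, R.2) ∉ Λ ∧ tl (rv (be kk, R.2)) ∈ Λ :=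
  T.start T.nk T.ext fun e => T.ne_name T.nk T.R1 T.R2 (congrArg Prod.fst e)

lemma not_K0_ct : ¬ T.K0 ct := by
  intro h
  obtain ⟨i, d, hi, hμ, u, hu, h1, h2, h3, h4⟩ := T.out_K0 T.c1 T.c2 h
  have n3 : tl (be (μ i), d) ∉ Λᶜ := fun h => h h3
  have n4 : tl (rv (be i, d)) ∉ Λᶜ := fun h => h h4
  have n5 : tl (be p, true) ∉ Λᶜ := fun h => h T.be_p_in
  have hk := T.kp_of hi hμ (Or.inr (Or.inl rfl)) T.np
  rcases rv_fst_eq (x := ((ct, true) : DC)) (y := u) hu.symm with e | e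
  · rw [← e] at h1
    exact hk.2 (T.inj _ _ (T.mm i hi) T.np (congrArg Prod.fst (h1.uniq T.tp n3 n5)))
  · rw [← e] at h2
    exact hk.1 (T.inj _ _ hi T.np (congrArg Prod.fst (h2.uniq T.tp n4 n5)))

/-- the way through the string -/
lemma thr : ∀ i : ℕ, i < m →
    (ip (srow t m) L)^[k + i] R = ent (t.1 + (m : ℤ) - 1 - (i : ℤ), t.2 + (m : ℤ) - 1 - (i : ℤ)) .E := by
  have h0 := T.odd
  intro i
  induction i with
  | zero =>
    intro _
    rw [Nat.add_zero, T.root.run]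
    unfold wst
    simp
  | succ i ih =>
    intro hi
    have hmem : (t.1 + (m : ℤ) - 1 - (i : ℤ), t.2 + (m : ℤ) - 1 - (i : ℤ)) ∈ srow t m := by
      rw [mem_srow]
      refine ⟨m - 1 - i, by omega, ?_⟩
      refine Prod.ext ?_ ?_ <;> simp only <;> omega
    rw [← Nat.add_assoc, Function.iterate_succ_apply', ih (by omega),
      ip_cross (by simp only; omega) hmem]
    show exi _ .W = _
    rw [exi_W (by simp only; omega)]
    congr 1
    refine Prod.ext ?_ ?_ <;> simp only <;> push_cast <;> ring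

/-- the strand of the root leaves the string at `z` -/
lemma orb_z : InOrb (ip (srow t m) L) R (exi t .W) := by
  have hm := T.pos
  have h1 := T.thr (m - 1) (by omega)
  have e : ((t.1 + (m : ℤ) - 1 - ((m - 1 : ℕ) : ℤ), t.2 + (m : ℤ) - 1 - ((m - 1 : ℕ) : ℤ)) : ℤ × ℤ) = t := by
    refine Prod.ext ?_ ?_ <;> simp only <;> omega
  rw [e] at h1
  refine ⟨k + (m - 1) + 1, ?_⟩
  rw [Function.iterate_succ_apply', h1,
    ip_cross T.odd (by rw [mem_srow]; exact ⟨0, hm, by simp⟩)]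
  rfl

lemma not_W {x : DC} (h : InOrb (ip (srow t m) L) R x) : x ≠ ent t .W := by
  rintro rfl
  exact ip_not_both h T.orb_z

/-- **The first exit.** -/
theorem exists_leave : ∃ x, InOrb (ip (srow t m) L) R x ∧ T.Lv x := by
  classical
  obtain ⟨N, hN⟩ := ip_symm T.orb_z
  have hex : ∃ n, ¬ T.K0 ((ip (srow t m) L)^[n] (exi t .W)).1 := ⟨N, by rw [hN]; exact T.not_K0_R⟩
  have h0 : T.K0 (exi t .W).1 := Or.inl (SimpleGraph.Reachable.refl _)
  have hpos : 0 < Nat.find hex := by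
    rcases Nat.eq_zero_or_pos (Nat.find hex) with h | h
    · have := Nat.find_spec hex
      rw [h] at this
      exact absurd h0 this
    · exact h
  set n := Nat.find hex - 1 with hn
  have h1 : T.K0 ((ip (srow t m) L)^[n] (exi t .W)).1 := by
    by_contra h
    have := Nat.find_min' hex h
    omega
  have h2 : ¬ T.K0 (ip (srow t m) L ((ip (srow t m) L)^[n] (exi t .W))).1 := by
    have := Nat.find_spec hex
    rwa [show Nat.find hex = n + 1 by omega, Function.iterate_succ_apply'] at this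
  have h3 : InOrb (ip (srow t m) L) R ((ip (srow t m) L)^[n] (exi t .W)) :=
    InOrb.trans' T.orb_z ⟨n, rfl⟩
  exact ⟨_, h3, (T.step0 h1 (T.not_W h3)).resolve_left h2⟩

/-! ### At most one of the unmatched names -/

lemma deg2 : Deg2 T.G := by
  intro v a b c ha hb hc
  by_cases hv : ∃ i, Mk i ∧ v = be i
  · obtain ⟨i, hi, rfl⟩ := hv
    have e1 : IsEnd (SG Λ ↑(srow t m) L) (be i) := isEnd_of_notMem (T.no i hi)
    have e2 : ∀ {x y : ℤ × ℤ}, (AG Mk μ be).Adj (be i) x → (AG Mk μ be).Adj (be i) y → x = y := by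
      intro x y hx hy
      obtain ⟨j, hj, -, h1, rfl⟩ := T.arc_of hx
      obtain ⟨j', hj', -, h1', rfl⟩ := T.arc_of hy
      have := T.inj _ _ hi hj h1
      have := T.inj _ _ hi hj' h1'
      subst_vars; rfl
    rcases ha with ha | ha <;> rcases hb with hb | hb <;> rcases hc with hc | hc
    · exact Or.inl (e1 _ _ ha hb)
    · exact Or.inl (e1 _ _ ha hb)
    · exact Or.inr (Or.inl (e1 _ _ ha hc))
    · exact Or.inr (Or.inr (e2 hb hc))
    · exact Or.inr (Or.inr (e1 _ _ hb hc))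
    · exact Or.inr (Or.inl (e2 ha hc))
    · exact Or.inl (e2 ha hb)
    · exact Or.inl (e2 ha hb)
  · have key : ∀ {x : ℤ × ℤ}, T.G.Adj v x → (SG Λ ↑(srow t m) L).Adj v x := by
      intro x hx
      rcases hx with hx | hx
      · exact hx
      · obtain ⟨j, hj, -, h1, -⟩ := T.arc_of hx
        exact absurd ⟨j, hj, h1⟩ hv
    exact SG_deg2 _ _ _ _ (key ha) (key hb) (key hc)

lemma z_not_name {i : ι} (hi : Mk i) : be i ≠ eW t := by
  intro e
  have ht : t ∈ Λ := T.sub t (by rw [mem_srow]; exact ⟨0, T.pos, by simp⟩)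
  have h1 := of_side T.odd (eW t) (Or.inl rfl)
  have h0 := T.odd
  have h2 := of_side (e := (t.1 - 1, t.2 - 1)) (by simp only; omega) (eW t)
    (Or.inr (Or.inl (by unfold eW eE; simp)))
  have hne : ((t.1 - 1, t.2 - 1) : ℤ × ℤ) ≠ t := by
    intro h; have := congrArg Prod.fst h; simp only at this; omega
  have hw := T.west
  rcases T.no i hi with h | h <;> rw [e] at h
  · rcases h1 with h1 | h1
    · exact h (h1 ▸ ht)
    · rcases h2 with h2 | h2
      · exact h (h2 ▸ hw)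
      · exact hne (h2.trans h1.symm)
  · rcases h1 with h1 | h1
    · rcases h2 with h2 | h2
      · exact hne (h2.trans h1.symm)
      · exact h (h2 ▸ hw)
    · exact h (h1 ▸ ht)

lemma end_z : IsEnd T.G (eW t) := by
  have ht : t ∈ srow t m := by rw [mem_srow]; exact ⟨0, T.pos, by simp⟩
  have key : ∀ {x : ℤ × ℤ}, T.G.Adj (eW t) x → (SG Λ ↑(srow t m) L).Adj (eW t) x := by
    intro x hx
    rcases hx with hx | hx
    · exact hx
    · obtain ⟨j, hj, -, h1, -⟩ := T.arc_of hx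
      exact absurd h1.symm (T.z_not_name hj)
  intro a b ha hb
  exact isEnd_eW (mem_coe.2 ht) T.odd a b (key ha) (key hb)

lemma end_x {j : ι} (hj : Mk j) (h : μ j = j) : IsEnd T.G (be j) := by
  have key : ∀ {x : ℤ × ℤ}, T.G.Adj (be j) x → (SG Λ ↑(srow t m) L).Adj (be j) x := by
    intro x hx
    rcases hx with hx | hx
    · exact hx
    · obtain ⟨i, hi, hne, h1, -⟩ := T.arc_of hx
      have := T.inj _ _ hj hi h1
      subst this
      exact absurd h hne
  intro a b ha hb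
  exact isEnd_of_notMem (T.no j hj) a b (key ha) (key hb)

lemma one {i j : ι} (hi : Mk i) (hj : Mk j) (h1 : μ i = i) (h2 : μ j = j)
    (r1 : T.G.Reachable (eW t) (be i)) (r2 : T.G.Reachable (eW t) (be j)) : i = j := by
  rcases ends_two T.deg2 T.end_z (T.end_x hi h1) (T.end_x hj h2) r1 r2
    (T.z_not_name hi).symm with h | h
  · exact absurd h (T.z_not_name hj)
  · exact (T.inj _ _ hj hi h).symm

/-! ### The strand of the root does not pass `ct` if `z` is joined to `kk` -/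

/-- the orbit of the root -/
def Gd (T : TW Λ t m L Mk μ be kk p q R k ct) (y : DC) : Prop :=
  T.K0 y.1 ∨ (Rn (srow t m) L Λᶜ (be kk, R.2) y ∧
    Rn (srow t m) L Λᶜ y (wst (t.1 + (m : ℤ), t.2 + (m : ℤ)))) ∨
    ∃ i : ℕ, i < m ∧ y = ent (t.1 + (i : ℤ), t.2 + (i : ℤ)) .E

lemma wst_ent : wst (t.1 + (m : ℤ), t.2 + (m : ℤ)) =
    ent (t.1 + ((m - 1 : ℕ) : ℤ), t.2 + ((m - 1 : ℕ) : ℤ)) .E := by
  have := T.pos
  unfold wst
  congr 1
  refine Prod.ext ?_ ?_ <;> simp only <;> omega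

lemma Gd_step (hk : T.G.Reachable (eW t) (be kk)) {y : DC} (hy : T.Gd y) (hW : y ≠ ent t .W) :
    T.Gd (ip (srow t m) L y) := by
  have hm := T.pos
  have hE : ∀ y : DC, Rn (srow t m) L Λᶜ (be kk, R.2) y →
      Rn (srow t m) L Λᶜ y (wst (t.1 + (m : ℤ), t.2 + (m : ℤ))) →
      y ≠ wst (t.1 + (m : ℤ), t.2 + (m : ℤ)) → T.Gd (ip (srow t m) L y) := by
    intro y h1 h2 h3
    rcases h2.head with h4 | ⟨h4, h5⟩
    · exact absurd h4 h3
    · exact Or.inr (Or.inl ⟨h1.trans (Rn.step h4), h5⟩)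
  have hS : ∀ i : ℕ, i < m → T.Gd (ip (srow t m) L (ent (t.1 + (i : ℤ), t.2 + (i : ℤ)) .E)) := by
    intro i hi
    have h0 := T.odd
    rw [ip_cross (by simp only; omega) (mem_srow.2 ⟨i, hi, rfl⟩)]
    rcases Nat.eq_zero_or_pos i with rfl | h
    · left
      have e : ((t.1 + ((0 : ℕ) : ℤ), t.2 + ((0 : ℕ) : ℤ)) : ℤ × ℤ) = t := by simp
      rw [e]
      exact Or.inl (SimpleGraph.Reachable.refl _)
    · right; right
      refine ⟨i - 1, by omega, ?_⟩
      show exi _ .W = _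
      rw [exi_W (by simp only; omega)]
      congr 1
      refine Prod.ext ?_ ?_ <;> simp only <;> omega
  rcases hy with h | ⟨h1, h2⟩ | ⟨i, hi, rfl⟩
  · rcases T.step0 h hW with h | ⟨j, hj, hμ, hyj, hout, hr⟩
    · exact Or.inl h
    · have e : j = kk := T.one hj T.nk hμ ((T.fx kk T.nk).2 (Or.inl rfl)) hr hk
      subst e
      have hy : y = (be j, R.2) := by
        rcases rv_fst_eq (y := ((be j, R.2) : DC)) hyj with h | h
        · exact h
        · rw [h] at hout; exact absurd T.be_k_out.2 hout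
      subst hy
      exact hE _ (Rn.refl _) (T.ext.trans T.run_R) fun e => T.ns j hj (congrArg Prod.fst e)
  · by_cases hw : y = wst (t.1 + (m : ℤ), t.2 + (m : ℤ))
    · rw [hw, T.wst_ent]
      exact hS _ (by omega)
    · exact hE _ h1 h2 hw
  · exact hS i hi

lemma Gd_orb (hk : T.G.Reachable (eW t) (be kk)) {y : DC} (h : InOrb (ip (srow t m) L) R y) :
    T.Gd y := by
  obtain ⟨n, rfl⟩ := h
  induction n with
  | zero => exact Or.inr (Or.inl ⟨T.ext, T.run_R⟩)
  | succ n ih =>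
    rw [Function.iterate_succ_apply']
    exact T.Gd_step hk ih (T.not_W ⟨n, rfl⟩)

lemma not_Gd_ct (d : Bool) : ¬ T.Gd (ct, d) := by
  have n5 : tl (be p, true) ∉ Λᶜ := fun h => h T.be_p_in
  rintro (h | ⟨h1, h2⟩ | ⟨i, hi, h⟩)
  · exact T.not_K0_ct h
  · cases d
    · have h3 := h1.rev
      have e := T.tp.uniq h3 n5 (fun h => h T.be_k_out.2)
      exact T.kp (T.inj _ _ T.np T.nk (congrArg Prod.fst e)).symm
    · have e := T.tp.uniq h2 n5 (fun h => h T.tl_wst_mem)
      exact T.ns p T.np (congrArg Prod.fst e)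
  · have h3 := congrArg tl h
    have h0 := T.odd
    rw [tl_ent (by simp only; omega)] at h3
    have h4 := T.sub _ (mem_srow.2 ⟨i, hi, rfl⟩)
    rw [← h3] at h4
    rcases tl_cases ((ct, d) : DC) with ⟨h5, -⟩ | ⟨h5, -⟩ <;> rw [h5] at h4
    · exact T.c1 h4
    · exact T.c2 h4

/-! ### The value -/

variable {a b : ℂ}

/-- **The passage theorem.** -/
theorem pass :
    (T.G.Reachable (eW t) (be kk) ∧ ¬ T.G.Reachable (eW t) (be q) ∧ ¬ T.G.Reachable (eW t) (be p) ∧
      ∀ d, ¬ InOrb (ip (srow t m) L) R (ct, d)) ∨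
    (¬ T.G.Reachable (eW t) (be kk) ∧ T.G.Reachable (eW t) (be q) ∧ ¬ T.G.Reachable (eW t) (be p) ∧
      InOrb (ip (srow t m) L) R (ct, true) ∧ ¬ InOrb (ip (srow t m) L) R (ct, false)) ∨
    (¬ T.G.Reachable (eW t) (be kk) ∧ ¬ T.G.Reachable (eW t) (be q) ∧ T.G.Reachable (eW t) (be p) ∧
      ¬ InOrb (ip (srow t m) L) R (ct, true) ∧ InOrb (ip (srow t m) L) R (ct, false)) := by
  have fk := (T.fx kk T.nk).2 (Or.inl rfl)
  have fp := (T.fx p T.np).2 (Or.inr (Or.inl rfl))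
  have fq := (T.fx q T.nq).2 (Or.inr (Or.inr rfl))
  obtain ⟨x, hx, j, hj, hμ, hxj, hout, hr⟩ := T.exists_leave
  rcases (T.fx j hj).1 hμ with rfl | rfl | rfl
  · left
    refine ⟨hr, fun h => T.kq (T.one hj T.nq hμ fq hr h), fun h => T.kp (T.one hj T.np hμ fp hr h),
      fun d h => T.not_Gd_ct d (T.Gd_orb hr h)⟩
  · right; right
    have hx2 : x = rv (be j, true) := by
      rcases rv_fst_eq (y := ((be j, true) : DC)) hxj with h | h
      · rw [h] at hout; exact absurd T.be_p_in hout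
      · exact h
    have h1 : InOrb (ip (srow t m) L) R (ct, false) := by
      rw [hx2] at hx
      exact InOrb.trans' hx T.tp.rev.inOrb
    refine ⟨fun h => T.kp (T.one T.nk hj fk hμ h hr), fun h => T.pq (T.one T.nq hj fq hμ h hr).symm,
      hr, ip_not_both h1, h1⟩
  · right; left
    have hx2 : x = (be j, true) := by
      rcases rv_fst_eq (y := ((be j, true) : DC)) hxj with h | h
      · exact h
      · rw [h] at hout; exact absurd T.be_q_out.2 hout
    have h1 : InOrb (ip (srow t m) L) R (ct, true) := by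
      rw [hx2] at hx
      exact InOrb.trans' hx T.tq.inOrb
    refine ⟨fun h => T.kq (T.one T.nk hj fk hμ h hr), hr, fun h => T.pq (T.one T.np hj fp hμ h hr),
      h1, ip_not_both h1⟩

open Classical in
/-- **The value of the target corner.** -/
theorem val_eq : Pool.Agent.H84.W.val a b (srow t m) L R ct =
    if T.G.Reachable (eW t) (be kk) then 0
    else if T.G.Reachable (eW t) (be q) then (if R.2 then 1 else a) else (if R.2 then b else 1) := by
  unfold Pool.Agent.H84.W.val vv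
  rcases T.pass with ⟨h1, h2, h3, h4⟩ | ⟨h1, h2, h3, h4, h5⟩ | ⟨h1, h2, h3, h4, h5⟩
  · simp [h1, h4]
  · simp [h1, h2, h4, h5]
  · simp [h1, h2, h4, h5]

end TW

/-- the factor -/
noncomputable def be8 (c0 : Bool) : ℂ := if c0 then (1 - tau ^ 2)⁻¹ else (tau ^ 2 - 1)⁻¹

/-- the constant -/
noncomputable def al8 (c0 : Bool) : ℂ := if c0 then 1 - be8 true else -be8 false

lemma tau_sum : 1 + tau + tau ^ 2 = 0 := by
  have h1 := tau_cube
  have h2 : (tau - 1) * (1 + tau + tau ^ 2) = 0 := by linear_combination h1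
  rcases mul_eq_zero.1 h2 with h | h
  · exact absurd (by linear_combination h) tau_ne_one
  · exact h

lemma tau_sq_ne : tau ^ 2 ≠ 1 := by
  intro h
  have h1 := tau_cube
  apply tau_ne_one
  linear_combination h1 - tau * h

lemma tau_ab : -tau + -tau ^ 2 = 1 ∧ -tau * -tau ^ 2 = 1 := by
  have h1 := tau_sum
  have h2 := tau_cube
  exact ⟨by linear_combination -h1, by linear_combination h2⟩

/-- the values at the three unmatched marks -/
lemma al8_be8 : (al8 false + be8 false = 0 ∧ al8 false + be8 false * tau = -tau ∧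
      al8 false + be8 false * tau ^ 2 = 1) ∧
    (al8 true + be8 true = 1 ∧ al8 true + be8 true * tau = -tau ^ 2 ∧
      al8 true + be8 true * tau ^ 2 = 0) := by
  have h1 := tau_sum
  have h2 := tau_cube
  have n1 : tau ^ 2 - 1 ≠ 0 := sub_ne_zero.2 tau_sq_ne
  have n2 : 1 - tau ^ 2 ≠ 0 := sub_ne_zero.2 (Ne.symm tau_sq_ne)
  unfold al8 be8
  simp only [if_true, Bool.false_eq_true, if_false]
  refine ⟨⟨by ring, ?_, ?_⟩, by ring, ?_, ?_⟩
  · field_simp
    linear_combination h2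
  · field_simp
    ring
  · field_simp
    linear_combination -h2 * tau
  · field_simp
    ring

section main

variable {Λ : Set (ℤ × ℤ)} {t : ℤ × ℤ} {m : ℕ} {L : Finset (ℤ × ℤ)} {Mk : ι → Prop} {μ : ι → ι}
  {be : ι → ℤ × ℤ} {kk p q : ι} {R : DC} {k : ℕ} {ct : ℤ × ℤ}

open Classical in
/-- the value and the three unmatched marks `x 0`, `x 1`, `x 2` -/
theorem TW.val_sum (T : TW Λ t m L Mk μ be kk p q R k ct) {x : Fin 3 → ι}
    (hx : (R.2 = false ∧ kk = x 0 ∧ q = x 1 ∧ p = x 2) ∨ (R.2 = true ∧ kk = x 2 ∧ p = x 1 ∧ q = x 0)) :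
    Pool.Agent.H84.W.val (-tau) (-tau ^ 2) (srow t m) L R ct = al8 R.2 + be8 R.2 * ∑ j : Fin 3, tau ^ (j : ℕ) *
      (if T.G.Reachable (eW t) (be (x j)) then 1 else 0) := by
  obtain ⟨⟨a0, a1, a2⟩, b0, b1, b2⟩ := al8_be8
  rw [T.val_eq, Fin.sum_univ_three]
  rcases hx with ⟨h0, rfl, rfl, rfl⟩ | ⟨h0, rfl, rfl, rfl⟩ <;> rw [h0] <;>
    rcases T.pass with ⟨h1, h2, h3, -⟩ | ⟨h1, h2, h3, -⟩ | ⟨h1, h2, h3, -⟩ <;>
    simp only [h1, h2, h3, if_true, if_false, Fin.val_zero, Fin.val_one, Fin.val_two, pow_zero, pow_one,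
      mul_one, mul_zero, add_zero, zero_add, Bool.false_eq_true]
  all_goals first
    | rw [a0]
    | rw [a1]
    | rw [a2]
    | rw [b0]
    | rw [b1]
    | rw [b2]

open Classical in
/-- **T8.** For every configuration `L` of the labels off the string: the frozen sum of the indicator that
the target corner is on the loop of the root is an affine function of `Σ τ ^ j 1[z ~ x j]`. -/
theorem TW.t8 (T : TW Λ t m L Mk μ be kk p q R k ct) {x : Fin 3 → ι}
    (hx : (R.2 = false ∧ kk = x 0 ∧ q = x 1 ∧ p = x 2) ∨ (R.2 = true ∧ kk = x 2 ∧ p = x 1 ∧ q = x 0))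
    {G : Finset (ℤ × ℤ)} (hd : DCo G (fi ct) (fi R.1)) (hdis : Disjoint (srow t m) L)
    (hG : srow t m ∪ L ⊆ G) :
    Ec (qs (-tau) (-tau ^ 2)) (srow t m) (fun σ => if InOrb (nx (L ∪ σ)) R.1 ct then (1 : ℂ) else 0) =
      al8 R.2 + be8 R.2 * ∑ j : Fin 3, tau ^ (j : ℕ) *
        (if T.G.Reachable (eW t) (be (x j)) then 1 else 0) := by
  rw [str_val tau_ab.1 tau_ab.2 hd m t L T.odd hdis hG T.root, T.val_sum hx]

end main

end Pool.Agent.H43.W
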