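import Mathlib
import Pool.Agent.H43.W.T8
import Pool.Agent.H85.W.Side
import Pool.Agent.H54.W.RoomBox
import Pool.Agent.H74.R45.Ext

set_option autoImplicit false
open Finset

/-! # The boundary of a box

Box `Zb X1 X2 Y1 Y2` (tiles `[X1, X2) × [Y1, Y2)`), string row `r` up to the right side. Only the colours of the
first layer of tiles of the box are prescribed: `lf y` left column, `rf y` (`y ≠ r`) right column, `cb`, `ct` lowest
and highest row; `rf (r - 1) = c0`, `rf (r + 1) = !c0`, `(X2 + r) % 2 = if c0 then 0 else 1`. The configuration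
inside is arbitrary. Names: the ends of the interfaces, i.e. the colour changes on the left and on the right
side. Then every boundary corner joined to a name or to `z` is a name (`Lay.ins`). -/

namespace Pool.Agent.H43.W

open Pool.Agent.H75.Perc hiding tau
open Pool.Agent.H75.TwoArm Pool.Agent.H33.Q1
open Pool.Agent.H13.W (eW eE eS eN SG TJ SG_adj lab_ne_plab not_TJ_eW not_TJ_eE of_side SG_deg2
  isEnd_of_notMem isEnd_eW TJ_congr)
open Pool.Agent.H99.W (Deg2 IsEnd ends_two)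
open Pool.Agent.H84.W (srow mem_srow wst)
open Pool.Agent.H85.W (Fw sd tl)
open Pool.Agent.H54.W (Zb mem_Zb lah)
open Pool.Agent.H21.W (ladt)
open Pool.Agent.H74.R45 (ve he)

variable {Λ S : Set (ℤ × ℤ)} {F L : Finset (ℤ × ℤ)} {c d : ℤ × ℤ} {x y : ℤ}

/-! ### Corners and their tiles -/

lemma tiles_ve (x y : ℤ) : (lab (ve (x, y)) = lt (x, y) ∧ plab (ve (x, y)) = lt (x - 1, y)) ∨
    (lab (ve (x, y)) = lt (x - 1, y) ∧ plab (ve (x, y)) = lt (x, y)) :=
  Pool.Agent.H54.W.lab_eW_lt x y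

lemma tiles_he (x y : ℤ) : (lab (he (x, y)) = lt (x, y) ∧ plab (he (x, y)) = lt (x, y - 1)) ∨
    (lab (he (x, y)) = lt (x, y - 1) ∧ plab (he (x, y)) = lt (x, y)) := by
  have h0 : ((lt (x, y)).1 + (lt (x, y)).2) % 2 = 1 := lt_odd _
  have h1 : ((lt (x, y - 1)).1 + (lt (x, y - 1)).2) % 2 = 1 := lt_odd _
  have a1 := of_side h0 (he (x, y)) (Or.inr (Or.inr (Or.inl (by
    unfold he eS lt; refine Prod.ext ?_ ?_ <;> simp only))))
  have a2 := of_side h1 (he (x, y)) (Or.inr (Or.inr (Or.inr (by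
    unfold he eN lt; refine Prod.ext ?_ ?_ <;> simp only <;> ring))))
  have hne : lt (x, y) ≠ lt (x, y - 1) := by
    intro h
    have := lt_inj h
    simp only [Prod.mk.injEq] at this
    omega
  rcases a1 with a1 | a1 <;> rcases a2 with a2 | a2
  · exact absurd (a1.trans a2.symm) hne
  · exact Or.inl ⟨a1.symm, a2.symm⟩
  · exact Or.inr ⟨a2.symm, a1.symm⟩
  · exact absurd (a1.trans a2.symm) hne

lemma ve_inj {x y x' y' : ℤ} (h : ve (x, y) = ve (x', y')) : x = x' ∧ y = y' := by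
  unfold ve at h
  simp only [Prod.mk.injEq] at h
  omega

lemma he_ne_ve {x y x' y' : ℤ} : he (x, y) ≠ ve (x', y') := by
  unfold ve he
  intro h
  simp only [Prod.mk.injEq] at h
  omega

lemma he_inj {x y x' y' : ℤ} (h : he (x, y) = he (x', y')) : x = x' ∧ y = y' := by
  unfold he at h
  simp only [Prod.mk.injEq] at h
  omega

/-! ### Pivots -/

lemma reach_Fw (hS : ∀ e ∈ S, e ∈ Λ ∧ e ∉ F) {c d : ℤ × ℤ} (h : Fw L S c d) :
    (SG Λ ↑F L).Reachable c d := by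
  refine (Pool.Agent.H85.W.Fw.reach h).mono ?_
  rintro a b ⟨e, he, hT⟩
  refine ⟨e, (hS e he).1, ?_⟩
  rw [TJ_congr (D' := ∅) (w' := L)]
  · exact hT
  · simp [(hS e he).2]
  · exact fun _ => Iff.rfl

lemma piv {Q : ℤ × ℤ} {k m : ℕ} {p : Bool} (hp : (Q.1 + Q.2) % 2 = if p then 1 else 0)
    (h : ∀ j < m, tl Q (k + j) ∈ Λ ∧ tl Q (k + j) ∉ F ∧ (tl Q (k + j) ∈ L ↔ p = true)) :
    (SG Λ ↑F L).Reachable (sd Q k) (sd Q (k + m)) := by
  cases p
  · refine reach_Fw (S := {e | e ∈ Λ ∧ e ∉ F}) (fun e he => he) ?_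
    refine Fw.ccw (by simpa using hp) fun j hj => ?_
    obtain ⟨h1, h2, h3⟩ := h j hj
    exact ⟨fun h4 => by simpa using h3.1 h4, h1, h2⟩
  · refine (reach_Fw (S := {e | e ∈ Λ ∧ e ∉ F}) (fun e he => he) ?_).symm
    refine Fw.cw (by simpa using hp) fun j hj => ?_
    obtain ⟨h1, h2, h3⟩ := h j hj
    exact ⟨h3.2 rfl, h1, h2⟩

/-- `P` = height of the pivot of the side `(X, y)`, colours `f` -/
def PV (X : ℤ) (f : ℤ → Bool) (y P : ℤ) : Prop :=
  (P = y ∨ P = y + 1) ∧ (X + P) % 2 = if f y then 1 else 0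

lemma PV.uniq {X : ℤ} {f : ℤ → Bool} {y P P' : ℤ} (h : PV X f y P) (h' : PV X f y P') : P = P' := by
  obtain ⟨h1, h2⟩ := h
  obtain ⟨h3, h4⟩ := h'
  cases hf : f y <;> rw [hf] at h2 h4 <;> simp only [Bool.false_eq_true, if_false, if_true] at h2 h4 <;>
    omega

lemma PV.ex (X : ℤ) (f : ℤ → Bool) (y : ℤ) : ∃ P, PV X f y P := by
  by_cases h : (X + y) % 2 = if f y then 1 else 0
  · exact ⟨y, Or.inl rfl, h⟩
  · refine ⟨y + 1, Or.inr rfl, ?_⟩
    cases hf : f y <;> rw [hf] at h <;> simp only [Bool.false_eq_true, if_false, if_true] at h ⊢ <;> omega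

lemma PV.same {X : ℤ} {f : ℤ → Bool} {P : ℤ} (h : f (P - 1) = f P) (hp : (X + P) % 2 = if f P then 1 else 0) :
    PV X f P P ∧ PV X f (P - 1) P :=
  ⟨⟨Or.inl rfl, hp⟩, Or.inr (by ring), by rw [h]; exact hp⟩

/-- the end of an interface -/
lemma PV.name {X : ℤ} {f : ℤ → Bool} {y P : ℤ} (h : PV X f y P) (hc : f (P - 1) ≠ f P) :
    lah X P (ladt (f (P - 1)) X P) = ve (X, y) := by
  obtain ⟨h1, h2⟩ := h
  rcases h1 with rfl | rfl
  · have e : ladt (f (P - 1)) X P = false := by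
      unfold ladt
      cases hf : f P <;> rw [hf] at h2 hc <;> simp only [Bool.false_eq_true, if_false, if_true] at h2
      · have h3 : f (P - 1) = true := by revert hc; cases f (P - 1) <;> simp
        rw [h3]
        have : ¬ (X + P) % 2 = 1 := by omega
        simp [this]
      · have h3 : f (P - 1) = false := by revert hc; cases f (P - 1) <;> simp
        rw [h3]
        simp [h2]
    rw [e]; rfl
  · rw [add_sub_cancel_right] at hc ⊢
    have e : ladt (f y) X (y + 1) = true := by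
      unfold ladt
      cases hf : f y <;> rw [hf] at h2 <;> simp only [Bool.false_eq_true, if_false, if_true] at h2
      · have : ¬ (X + (y + 1)) % 2 = 1 := by omega
        simp [this]
      · simp [h2]
    rw [e]
    show eW (lt (X, y + 1 - 1)) = _
    rw [add_sub_cancel_right]; rfl

lemma PV.of_name {X : ℤ} {f : ℤ → Bool} {m : ℤ} (hc : f (m - 1) ≠ f m) :
    ∃ y, lah X m (ladt (f (m - 1)) X m) = ve (X, y) ∧ PV X f y m := by
  by_cases h : (X + m) % 2 = if f m then 1 else 0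
  · exact ⟨m, PV.name ⟨Or.inl rfl, h⟩ hc, Or.inl rfl, h⟩
  · have h2 : (X + m) % 2 = if f (m - 1) then 1 else 0 := by
      revert hc
      cases hf : f m <;> cases hf' : f (m - 1) <;> rw [hf] at h <;>
        simp only [Bool.false_eq_true, if_false, if_true, ne_eq, not_true_eq_false, not_false_iff, reduceCtorEq,
          IsEmpty.forall_iff, forall_const] at h ⊢ <;> omega
    have h3 : PV X f (m - 1) m := ⟨Or.inr (by ring), h2⟩
    exact ⟨m - 1, h3.name hc, h3⟩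

/-! ### The first layer of the box -/

/-- **Colours of the first layer of the box**, string row `r`. -/
structure Lay (X1 X2 Y1 Y2 r : ℤ) (c0 : Bool) (lf rf : ℤ → Bool) (cb ct : Bool)
    (F L : Finset (ℤ × ℤ)) : Prop where
  hX : X1 < X2
  r1 : Y1 < r
  r2 : r + 1 < Y2
  left : ∀ y, Y1 ≤ y → y < Y2 → lt (X1, y) ∉ F ∧ (lt (X1, y) ∈ L ↔ lf y = true)
  right : ∀ y, Y1 ≤ y → y < Y2 → y ≠ r → lt (X2 - 1, y) ∉ F ∧ (lt (X2 - 1, y) ∈ L ↔ rf y = true)
  bot : ∀ x, X1 ≤ x → x < X2 → lt (x, Y1) ∉ F ∧ (lt (x, Y1) ∈ L ↔ cb = true)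
  top : ∀ x, X1 ≤ x → x < X2 → lt (x, Y2 - 1) ∉ F ∧ (lt (x, Y2 - 1) ∈ L ↔ ct = true)
  rc : rf (r - 1) = c0
  rd : rf (r + 1) = !c0
  par : (X2 + r) % 2 = if c0 then 0 else 1
  str : lt (X2 - 1, r) ∈ F

/-- the names are the ends of the interfaces at the sides of the box -/
structure Nms (X1 X2 Y1 Y2 r : ℤ) (lf rf : ℤ → Bool) {ι : Type*} (Mk : ι → Prop) (be : ι → ℤ × ℤ) :
    Prop where
  l : ∀ m, Y1 < m → m < Y2 → lf (m - 1) ≠ lf m →
    ∃ i, Mk i ∧ be i = lah X1 m (ladt (lf (m - 1)) X1 m)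
  rr : ∀ m, Y1 < m → m < Y2 → m ≠ r → m ≠ r + 1 → rf (m - 1) ≠ rf m →
    ∃ i, Mk i ∧ be i = lah X2 m (ladt (rf (m - 1)) X2 m)
  of : ∀ i, Mk i → (∃ m, Y1 < m ∧ m < Y2 ∧ lf (m - 1) ≠ lf m ∧
      be i = lah X1 m (ladt (lf (m - 1)) X1 m)) ∨
    ∃ m, Y1 < m ∧ m < Y2 ∧ m ≠ r ∧ m ≠ r + 1 ∧ rf (m - 1) ≠ rf m ∧
      be i = lah X2 m (ladt (rf (m - 1)) X2 m)

section lay

variable {X1 X2 Y1 Y2 r : ℤ} {c0 : Bool} {lf rf : ℤ → Bool} {cb ct : Bool} {ι : Type*} {Mk : ι → Prop}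
  {be : ι → ℤ × ℤ}

lemma Nms.side (N : Nms X1 X2 Y1 Y2 r lf rf Mk be) {i : ι} (hi : Mk i) :
    (∃ y m, be i = ve (X1, y) ∧ Y1 ≤ y ∧ y < Y2 ∧ PV X1 lf y m ∧ Y1 < m ∧ m < Y2 ∧ lf (m - 1) ≠ lf m) ∨
    (∃ y m, be i = ve (X2, y) ∧ Y1 ≤ y ∧ y < Y2 ∧ y ≠ r ∧ PV X2 rf y m ∧ rf (m - 1) ≠ rf m) := by
  rcases N.of i hi with ⟨m, h1, h2, h3, h4⟩ | ⟨m, h1, h2, h5, h6, h3, h4⟩
  · obtain ⟨y, h7, h8⟩ := PV.of_name (X := X1) h3
    have := h8.1
    exact Or.inl ⟨y, m, h4.trans h7, by omega, by omega, h8, h1, h2, h3⟩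
  · obtain ⟨y, h7, h8⟩ := PV.of_name (X := X2) h3
    have := h8.1
    exact Or.inr ⟨y, m, h4.trans h7, by omega, by omega, by omega, h8, h3⟩

/-- no name -/
lemma Nms.not_l (N : Nms X1 X2 Y1 Y2 r lf rf Mk be) (hX : X1 < X2) {y P : ℤ} (h : PV X1 lf y P)
    (hc : lf (P - 1) = lf P) {i : ι} (hi : Mk i) : be i ≠ ve (X1, y) := by
  intro e
  rcases N.side hi with ⟨y', m, h1, -, -, h2, -, -, h3⟩ | ⟨y', m, h1, -⟩
  · obtain ⟨-, rfl⟩ := ve_inj (h1.symm.trans e)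
    rw [h2.uniq h] at h3
    exact h3 hc
  · have := (ve_inj (h1.symm.trans e)).1
    omega

lemma Nms.not_r (N : Nms X1 X2 Y1 Y2 r lf rf Mk be) (hX : X1 < X2) {y P : ℤ} (h : PV X2 rf y P)
    (hc : rf (P - 1) = rf P) {i : ι} (hi : Mk i) : be i ≠ ve (X2, y) := by
  intro e
  rcases N.side hi with ⟨y', m, h1, -⟩ | ⟨y', m, h1, -, -, -, h2, h3⟩
  · have := (ve_inj (h1.symm.trans e)).1
    omega
  · obtain ⟨-, rfl⟩ := ve_inj (h1.symm.trans e)
    rw [h2.uniq h] at h3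
    exact h3 hc

lemma Nms.not_he (N : Nms X1 X2 Y1 Y2 r lf rf Mk be) {i : ι} (hi : Mk i) : be i ≠ he (x, y) := by
  intro e
  rcases N.side hi with ⟨y', m, h1, -⟩ | ⟨y', m, h1, -⟩
  · exact he_ne_ve (e.symm.trans h1)
  · exact he_ne_ve (e.symm.trans h1)

/-- the corner has a tile outside -/
def Bo (Λ : Set (ℤ × ℤ)) (c : ℤ × ℤ) : Prop := lab c ∉ Λ ∨ plab c ∉ Λ

lemma bo_ve (h : lt (x - 1, y) ∉ Λ ∨ lt (x, y) ∉ Λ) : Bo Λ (ve (x, y)) := by
  unfold Bo
  rcases tiles_ve x y with ⟨h1, h2⟩ | ⟨h1, h2⟩ <;> rw [h1, h2] <;> tauto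

lemma bo_he (h : lt (x, y - 1) ∉ Λ ∨ lt (x, y) ∉ Λ) : Bo Λ (he (x, y)) := by
  unfold Bo
  rcases tiles_he x y with ⟨h1, h2⟩ | ⟨h1, h2⟩ <;> rw [h1, h2] <;> tauto

variable {A : Lay X1 X2 Y1 Y2 r c0 lf rf cb ct F L}

/-- the graph of the box -/
abbrev GX (X1 X2 Y1 Y2 : ℤ) (F L : Finset (ℤ × ℤ)) : SimpleGraph (ℤ × ℤ) := SG (Zb X1 X2 Y1 Y2) ↑F L

/-- partner of a corner of the left side -/
lemma Lay.pl (A : Lay X1 X2 Y1 Y2 r c0 lf rf cb ct F L) (N : Nms X1 X2 Y1 Y2 r lf rf Mk be)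
    (h1 : Y1 ≤ y) (h2 : y < Y2) : (∃ i, Mk i ∧ ve (X1, y) = be i) ∨
      ∃ c', c' ≠ ve (X1, y) ∧ Bo (Zb X1 X2 Y1 Y2) c' ∧ (GX X1 X2 Y1 Y2 F L).Reachable (ve (X1, y)) c' ∧ ∀ i, Mk i → be i ≠ c' := by
  have hX := A.hX
  obtain ⟨P, hP⟩ := PV.ex X1 lf y
  have hpar := hP.2
  by_cases hb : P = Y1
  · -- corner of the box
    have hy : y = Y1 := by have := hP.1; omega
    subst hy
    subst hb
    right
    refine ⟨he (X1, P), he_ne_ve, bo_he (Or.inl fun h => ?_), ?_, fun i hi => N.not_he hi⟩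
    · have := (mem_Zb.1 h).2.2.1; omega
    · refine (piv (Q := (X1, P)) (k := 0) (m := 1) (p := lf P) hpar fun j hj => ?_).symm
      have : j = 0 := by omega
      subst this
      exact ⟨mem_Zb.2 ⟨le_rfl, hX, h1, h2⟩, A.left P h1 h2⟩
  by_cases ht : P = Y2
  · have hy : y = Y2 - 1 := by have := hP.1; omega
    subst hy
    subst ht
    right
    refine ⟨he (X1, P), he_ne_ve, bo_he (Or.inr fun h => ?_), ?_, fun i hi => N.not_he hi⟩
    · have := (mem_Zb.1 h).2.2.2; omega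
    · refine (piv (Q := (X1, P)) (k := 3) (m := 1) (p := lf (P - 1)) hpar fun j hj => ?_)
      have : j = 0 := by omega
      subst this
      exact ⟨mem_Zb.2 ⟨le_rfl, hX, h1, h2⟩, A.left _ h1 h2⟩
  have hP1 : Y1 < P := by have := hP.1; omega
  have hP2 : P < Y2 := by have := hP.1; omega
  by_cases hc : lf (P - 1) = lf P
  · right
    have hp : (X1 + P) % 2 = if lf P then 1 else 0 := by
      rcases hP.1 with h | h
      · rw [h] at hpar ⊢; exact hpar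
      · rw [← hc, h, add_sub_cancel_right]; rw [h] at hpar; exact hpar
    obtain ⟨p1, p2⟩ := PV.same hc hp
    have hr : (GX X1 X2 Y1 Y2 F L).Reachable (ve (X1, P - 1)) (ve (X1, P)) := by
      refine piv (Q := (X1, P)) (k := 3) (m := 2) (p := lf P) hp fun j hj => ?_
      interval_cases j
      · have := A.left (P - 1) (by omega) (by omega)
        rw [hc] at this
        exact ⟨mem_Zb.2 ⟨le_rfl, hX, by omega, by omega⟩, this⟩
      · exact ⟨mem_Zb.2 ⟨le_rfl, hX, by omega, hP2⟩, A.left P (by omega) hP2⟩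
    have he : ∀ y', Bo (Zb X1 X2 Y1 Y2) (ve (X1, y')) := fun y' => bo_ve (Or.inl fun h => by
      have := (mem_Zb.1 h).1; omega)
    rcases hP.1 with h | h
    · subst h
      refine ⟨ve (X1, P - 1), fun e => ?_, he _, hr.symm, fun i hi => N.not_l hX p2 hc hi⟩
      have := (ve_inj e).2; omega
    · subst h
      rw [add_sub_cancel_right] at hr
      refine ⟨ve (X1, y + 1), fun e => ?_, he _, hr, fun i hi => N.not_l hX p1 hc hi⟩
      have := (ve_inj e).2; omega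
  · left
    obtain ⟨i, hi, h⟩ := N.l P hP1 hP2 hc
    exact ⟨i, hi, by rw [h, hP.name hc]⟩

/-- partner of a corner of the right side -/
lemma Lay.pr (A : Lay X1 X2 Y1 Y2 r c0 lf rf cb ct F L) (N : Nms X1 X2 Y1 Y2 r lf rf Mk be)
    (h1 : Y1 ≤ y) (h2 : y < Y2) (hr : y ≠ r) : (∃ i, Mk i ∧ ve (X2, y) = be i) ∨
      ∃ c', c' ≠ ve (X2, y) ∧ Bo (Zb X1 X2 Y1 Y2) c' ∧ (GX X1 X2 Y1 Y2 F L).Reachable (ve (X2, y)) c' ∧ ∀ i, Mk i → be i ≠ c' := by
  have hX := A.hX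
  obtain ⟨P, hP⟩ := PV.ex X2 rf y
  have hpar := hP.2
  have a1 := A.r1
  have a2 := A.r2
  -- the pivot is not at the string
  have hPr : P ≠ r := by
    intro e
    have hy : y = r - 1 := by have := hP.1; omega
    rw [hy, A.rc, e, A.par] at hpar
    revert hpar; cases c0 <;> simp
  have hPr1 : P ≠ r + 1 := by
    intro e
    have hy : y = r + 1 := by have := hP.1; omega
    rw [hy, A.rd, e] at hpar
    have := A.par
    revert hpar this; cases c0 <;> simp <;> omega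
  by_cases hb : P = Y1
  · have hy : y = Y1 := by have := hP.1; omega
    subst hy
    subst hb
    right
    refine ⟨he (X2 - 1, P), he_ne_ve, bo_he (Or.inl fun h => ?_), ?_, fun i hi => N.not_he hi⟩
    · have := (mem_Zb.1 h).2.2.1; omega
    · refine (piv (Q := (X2, P)) (k := 1) (m := 1) (p := rf P) hpar fun j hj => ?_)
      have : j = 0 := by omega
      subst this
      exact ⟨mem_Zb.2 ⟨by omega, by omega, h1, h2⟩, A.right P h1 h2 hr⟩
  by_cases ht : P = Y2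
  · have hy : y = Y2 - 1 := by have := hP.1; omega
    subst hy
    subst ht
    right
    refine ⟨he (X2 - 1, P), he_ne_ve, bo_he (Or.inr fun h => ?_), ?_, fun i hi => N.not_he hi⟩
    · have := (mem_Zb.1 h).2.2.2; omega
    · refine (piv (Q := (X2, P)) (k := 2) (m := 1) (p := rf (P - 1)) hpar fun j hj => ?_).symm
      have : j = 0 := by omega
      subst this
      exact ⟨mem_Zb.2 ⟨by omega, by omega, h1, h2⟩, A.right _ h1 h2 hr⟩
  have hP1 : Y1 < P := by have := hP.1; omega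
  have hP2 : P < Y2 := by have := hP.1; omega
  by_cases hc : rf (P - 1) = rf P
  · right
    have hp : (X2 + P) % 2 = if rf P then 1 else 0 := by
      rcases hP.1 with h | h
      · rw [h] at hpar ⊢; exact hpar
      · rw [← hc, h, add_sub_cancel_right]; rw [h] at hpar; exact hpar
    obtain ⟨p1, p2⟩ := PV.same hc hp
    have hrr : (GX X1 X2 Y1 Y2 F L).Reachable (ve (X2, P)) (ve (X2, P - 1)) := by
      refine piv (Q := (X2, P)) (k := 1) (m := 2) (p := rf P) hp fun j hj => ?_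
      interval_cases j
      · exact ⟨mem_Zb.2 ⟨by omega, by omega, by omega, hP2⟩, A.right P (by omega) hP2 hPr⟩
      · have := A.right (P - 1) (by omega) (by omega) (by omega)
        rw [hc] at this
        exact ⟨mem_Zb.2 ⟨by omega, by omega, by omega, by omega⟩, this⟩
    have he : ∀ y', Bo (Zb X1 X2 Y1 Y2) (ve (X2, y')) := fun y' => bo_ve (Or.inr fun h => by
      have := (mem_Zb.1 h).2.1; omega)
    rcases hP.1 with h | h
    · subst h
      refine ⟨ve (X2, P - 1), fun e => ?_, he _, hrr, fun i hi => N.not_r hX p2 hc hi⟩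
      have := (ve_inj e).2; omega
    · subst h
      rw [add_sub_cancel_right] at hrr
      refine ⟨ve (X2, y + 1), fun e => ?_, he _, hrr.symm, fun i hi => N.not_r hX p1 hc hi⟩
      have := (ve_inj e).2; omega
  · left
    obtain ⟨i, hi, h⟩ := N.rr P hP1 hP2 hPr hPr1 hc
    exact ⟨i, hi, by rw [h, hP.name hc]⟩

/-- pivot of a horizontal side -/
lemma exists_pv (x Y : ℤ) (p : Bool) : ∃ P, (P = x ∨ P = x + 1) ∧ (P + Y) % 2 = if p then 1 else 0 := by
  by_cases h : (x + Y) % 2 = if p then 1 else 0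
  · exact ⟨x, Or.inl rfl, h⟩
  · refine ⟨x + 1, Or.inr rfl, ?_⟩
    cases p <;> simp only [Bool.false_eq_true, if_false, if_true] at h ⊢ <;> omega

/-- partner of a corner of the lowest row -/
lemma Lay.pb (A : Lay X1 X2 Y1 Y2 r c0 lf rf cb ct F L) (N : Nms X1 X2 Y1 Y2 r lf rf Mk be)
    (h1 : X1 ≤ x) (h2 : x < X2) :
      ∃ c', c' ≠ he (x, Y1) ∧ Bo (Zb X1 X2 Y1 Y2) c' ∧ (GX X1 X2 Y1 Y2 F L).Reachable (he (x, Y1)) c' ∧ ∀ i, Mk i → be i ≠ c' := by
  have hX := A.hX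
  have a1 := A.r1
  have a2 := A.r2
  obtain ⟨P, hP, hpar⟩ := exists_pv x Y1 cb
  have lY : lf Y1 = cb := by
    have b1 := (A.left Y1 le_rfl (by omega)).2
    have b2 := (A.bot X1 le_rfl hX).2
    have b3 := b1.symm.trans b2
    revert b3; cases lf Y1 <;> cases cb <;> simp
  have rY : rf Y1 = cb := by
    have b1 := (A.right Y1 le_rfl (by omega) (by omega)).2
    have b2 := (A.bot (X2 - 1) (by omega) (by omega)).2
    have b3 := b1.symm.trans b2
    revert b3; cases rf Y1 <;> cases cb <;> simp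
  by_cases hl : P = X1
  · subst hl
    have hx : x = P := by omega
    subst hx
    have hv : PV x lf Y1 Y1 := ⟨Or.inl rfl, by rw [lY]; exact hpar⟩
    refine ⟨ve (x, Y1), he_ne_ve.symm, bo_ve (Or.inl fun h => ?_), ?_, ?_⟩
    · have := (mem_Zb.1 h).1; omega
    · refine piv (Q := (x, Y1)) (k := 0) (m := 1) (p := cb) hpar fun j hj => ?_
      have : j = 0 := by omega
      subst this
      exact ⟨mem_Zb.2 ⟨h1, h2, le_rfl, by omega⟩, A.bot x h1 h2⟩
    · intro i hi e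
      rcases N.side hi with ⟨y', m, g1, -, -, g2, g3, -, -⟩ | ⟨y', m, g1, -⟩
      · obtain ⟨-, rfl⟩ := ve_inj (g1.symm.trans e)
        have := hv.uniq g2
        omega
      · have := (ve_inj (g1.symm.trans e)).1; omega
  by_cases hr' : P = X2
  · subst hr'
    have hx : x = P - 1 := by omega
    subst hx
    have hv : PV P rf Y1 Y1 := ⟨Or.inl rfl, by rw [rY]; exact hpar⟩
    refine ⟨ve (P, Y1), he_ne_ve.symm, bo_ve (Or.inr fun h => ?_), ?_, ?_⟩
    · have := (mem_Zb.1 h).2.1; omega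
    · refine (piv (Q := (P, Y1)) (k := 1) (m := 1) (p := cb) hpar fun j hj => ?_).symm
      have : j = 0 := by omega
      subst this
      exact ⟨mem_Zb.2 ⟨h1, h2, le_rfl, by omega⟩, A.bot _ h1 h2⟩
    · intro i hi e
      rcases N.of i hi with ⟨m, g1, g2, g3, g4⟩ | ⟨m, g1, g2, g5, g6, g3, g4⟩
      · obtain ⟨y', g7, g8⟩ := PV.of_name (X := X1) g3
        have := (ve_inj ((g4.trans g7).symm.trans e)).1; omega
      · obtain ⟨y', g7, g8⟩ := PV.of_name (X := P) g3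
        obtain ⟨-, rfl⟩ := ve_inj ((g4.trans g7).symm.trans e)
        have := hv.uniq g8
        omega
  have hr2 : (GX X1 X2 Y1 Y2 F L).Reachable (he (P, Y1)) (he (P - 1, Y1)) := by
    refine piv (Q := (P, Y1)) (k := 0) (m := 2) (p := cb) hpar fun j hj => ?_
    interval_cases j
    · exact ⟨mem_Zb.2 ⟨by omega, by omega, le_rfl, by omega⟩, A.bot P (by omega) (by omega)⟩
    · exact ⟨mem_Zb.2 ⟨by omega, by omega, le_rfl, by omega⟩, A.bot (P - 1) (by omega) (by omega)⟩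
  have he' : ∀ x', Bo (Zb X1 X2 Y1 Y2) (he (x', Y1)) := fun x' => bo_he (Or.inl fun h => by
    have := (mem_Zb.1 h).2.2.1; omega)
  rcases hP with h | h
  · subst h
    refine ⟨he (P - 1, Y1), fun e => ?_, he' _, hr2, fun i hi => N.not_he hi⟩
    have := (he_inj e).1; omega
  · subst h
    rw [add_sub_cancel_right] at hr2
    refine ⟨he (x + 1, Y1), fun e => ?_, he' _, hr2.symm, fun i hi => N.not_he hi⟩
    have := (he_inj e).1; omega

/-- partner of a corner of the highest row -/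
lemma Lay.pt (A : Lay X1 X2 Y1 Y2 r c0 lf rf cb ct F L) (N : Nms X1 X2 Y1 Y2 r lf rf Mk be)
    (h1 : X1 ≤ x) (h2 : x < X2) :
      ∃ c', c' ≠ he (x, Y2) ∧ Bo (Zb X1 X2 Y1 Y2) c' ∧ (GX X1 X2 Y1 Y2 F L).Reachable (he (x, Y2)) c' ∧ ∀ i, Mk i → be i ≠ c' := by
  have hX := A.hX
  have a1 := A.r1
  have a2 := A.r2
  obtain ⟨P, hP, hpar⟩ := exists_pv x Y2 ct
  have lY : lf (Y2 - 1) = ct := by
    have b1 := (A.left (Y2 - 1) (by omega) (by omega)).2
    have b2 := (A.top X1 le_rfl hX).2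
    have b3 := b1.symm.trans b2
    revert b3; cases lf (Y2 - 1) <;> cases ct <;> simp
  have rY : rf (Y2 - 1) = ct := by
    have b1 := (A.right (Y2 - 1) (by omega) (by omega) (by omega)).2
    have b2 := (A.top (X2 - 1) (by omega) (by omega)).2
    have b3 := b1.symm.trans b2
    revert b3; cases rf (Y2 - 1) <;> cases ct <;> simp
  by_cases hl : P = X1
  · subst hl
    have hx : x = P := by omega
    subst hx
    have hv : PV x lf (Y2 - 1) Y2 := ⟨Or.inr (by ring), by rw [lY]; exact hpar⟩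
    refine ⟨ve (x, Y2 - 1), he_ne_ve.symm, bo_ve (Or.inl fun h => ?_), ?_, ?_⟩
    · have := (mem_Zb.1 h).1; omega
    · refine (piv (Q := (x, Y2)) (k := 3) (m := 1) (p := ct) hpar fun j hj => ?_).symm
      have : j = 0 := by omega
      subst this
      exact ⟨mem_Zb.2 ⟨h1, h2, by omega, by omega⟩, A.top x h1 h2⟩
    · intro i hi e
      rcases N.side hi with ⟨y', m, g1, -, -, g2, -, g3, -⟩ | ⟨y', m, g1, -⟩
      · obtain ⟨-, rfl⟩ := ve_inj (g1.symm.trans e)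
        have := hv.uniq g2
        omega
      · have := (ve_inj (g1.symm.trans e)).1; omega
  by_cases hr' : P = X2
  · subst hr'
    have hx : x = P - 1 := by omega
    subst hx
    have hv : PV P rf (Y2 - 1) Y2 := ⟨Or.inr (by ring), by rw [rY]; exact hpar⟩
    refine ⟨ve (P, Y2 - 1), he_ne_ve.symm, bo_ve (Or.inr fun h => ?_), ?_, ?_⟩
    · have := (mem_Zb.1 h).2.1; omega
    · refine (piv (Q := (P, Y2)) (k := 2) (m := 1) (p := ct) hpar fun j hj => ?_)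
      have : j = 0 := by omega
      subst this
      exact ⟨mem_Zb.2 ⟨h1, h2, by omega, by omega⟩, A.top _ h1 h2⟩
    · intro i hi e
      rcases N.of i hi with ⟨m, g1, g2, g3, g4⟩ | ⟨m, g1, g2, g5, g6, g3, g4⟩
      · obtain ⟨y', g7, g8⟩ := PV.of_name (X := X1) g3
        have := (ve_inj ((g4.trans g7).symm.trans e)).1; omega
      · obtain ⟨y', g7, g8⟩ := PV.of_name (X := P) g3
        obtain ⟨-, rfl⟩ := ve_inj ((g4.trans g7).symm.trans e)
        have := hv.uniq g8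
        omega
  have hr2 : (GX X1 X2 Y1 Y2 F L).Reachable (he (P - 1, Y2)) (he (P, Y2)) := by
    refine piv (Q := (P, Y2)) (k := 2) (m := 2) (p := ct) hpar fun j hj => ?_
    interval_cases j
    · exact ⟨mem_Zb.2 ⟨by omega, by omega, by omega, by omega⟩, A.top (P - 1) (by omega) (by omega)⟩
    · exact ⟨mem_Zb.2 ⟨by omega, by omega, by omega, by omega⟩, A.top P (by omega) (by omega)⟩
  have he' : ∀ x', Bo (Zb X1 X2 Y1 Y2) (he (x', Y2)) := fun x' => bo_he (Or.inr fun h => by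
    have := (mem_Zb.1 h).2.2.2; omega)
  rcases hP with h | h
  · subst h
    refine ⟨he (P - 1, Y2), fun e => ?_, he' _, hr2.symm, fun i hi => N.not_he hi⟩
    have := (he_inj e).1; omega
  · subst h
    rw [add_sub_cancel_right] at hr2
    refine ⟨he (x + 1, Y2), fun e => ?_, he' _, hr2, fun i hi => N.not_he hi⟩
    have := (he_inj e).1; omega

/-- **Every boundary corner except for the end of the string is a name or has a partner which is not a
name.** -/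
theorem Lay.partner (A : Lay X1 X2 Y1 Y2 r c0 lf rf cb ct F L) (N : Nms X1 X2 Y1 Y2 r lf rf Mk be)
    {c : ℤ × ℤ} (h1 : lab c ∈ Zb X1 X2 Y1 Y2 ∨ plab c ∈ Zb X1 X2 Y1 Y2)
    (h2 : lab c ∉ Zb X1 X2 Y1 Y2 ∨ plab c ∉ Zb X1 X2 Y1 Y2) (hs : c ≠ ve (X2, r)) :
    (∃ i, Mk i ∧ c = be i) ∨
      ∃ c', c' ≠ c ∧ Bo (Zb X1 X2 Y1 Y2) c' ∧ (GX X1 X2 Y1 Y2 F L).Reachable c c' ∧ ∀ i, Mk i → be i ≠ c' := by
  rcases Pool.Agent.H74.R45.exists_edge c with ⟨x, y, rfl⟩ | ⟨x, y, rfl⟩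
  · have h1' : lt (x - 1, y) ∈ Zb X1 X2 Y1 Y2 ∨ lt (x, y) ∈ Zb X1 X2 Y1 Y2 := by
      rcases tiles_ve x y with ⟨e1, e2⟩ | ⟨e1, e2⟩ <;> rw [e1, e2] at h1 <;> tauto
    have h2' : lt (x - 1, y) ∉ Zb X1 X2 Y1 Y2 ∨ lt (x, y) ∉ Zb X1 X2 Y1 Y2 := by
      rcases tiles_ve x y with ⟨e1, e2⟩ | ⟨e1, e2⟩ <;> rw [e1, e2] at h2 <;> tauto
    rw [mem_Zb, mem_Zb] at h1' h2'
    have hy : Y1 ≤ y ∧ y < Y2 := by omega
    have hx : x = X1 ∨ x = X2 := by omega
    rcases hx with rfl | rfl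
    · exact A.pl N hy.1 hy.2
    · refine A.pr N hy.1 hy.2 fun e => hs (by rw [e])
  · have h1' : lt (x, y - 1) ∈ Zb X1 X2 Y1 Y2 ∨ lt (x, y) ∈ Zb X1 X2 Y1 Y2 := by
      rcases tiles_he x y with ⟨e1, e2⟩ | ⟨e1, e2⟩ <;> rw [e1, e2] at h1 <;> tauto
    have h2' : lt (x, y - 1) ∉ Zb X1 X2 Y1 Y2 ∨ lt (x, y) ∉ Zb X1 X2 Y1 Y2 := by
      rcases tiles_he x y with ⟨e1, e2⟩ | ⟨e1, e2⟩ <;> rw [e1, e2] at h2 <;> tauto
    rw [mem_Zb, mem_Zb] at h1' h2'
    have hx : X1 ≤ x ∧ x < X2 := by omega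
    have hy : y = Y1 ∨ y = Y2 := by omega
    right
    rcases hy with rfl | rfl
    · exact A.pb N hx.1 hx.2
    · exact A.pt N hx.1 hx.2

/-- a corner with both tiles outside is isolated -/
lemma iso_out {D : Set (ℤ × ℤ)} (h1 : lab c ∉ Λ) (h2 : plab c ∉ Λ) : ¬ (SG Λ D L).Adj d c := by
  rintro ⟨e, he, h⟩
  rcases h.label' with rfl | rfl
  · exact h1 he
  · exact h2 he

/-- the end of the string is isolated in the box -/
lemma Lay.iso_s (A : Lay X1 X2 Y1 Y2 r c0 lf rf cb ct F L) : ¬ (GX X1 X2 Y1 Y2 F L).Adj d (ve (X2, r)) := by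
  rintro ⟨e, he, h⟩
  have h0 := A.str
  have hE : ve (X2, r) = eE (lt (X2 - 1, r)) := by
    unfold ve eE lt; refine Prod.ext ?_ ?_ <;> simp only <;> ring
  have h1 := h.label'
  have h3 : e = lt (X2, r) ∨ e = lt (X2 - 1, r) := by
    rcases tiles_ve X2 r with ⟨e1, e2⟩ | ⟨e1, e2⟩ <;> rw [e1, e2] at h1 <;> tauto
  rcases h3 with rfl | rfl
  · have := (mem_Zb.1 he).2.1; omega
  · have h4 := h.symm
    rw [hE] at h4
    exact not_TJ_eE (mem_coe.2 h0) h4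

/-- a name has a tile outside -/
lemma Nms.bo (N : Nms X1 X2 Y1 Y2 r lf rf Mk be) {i : ι} (hi : Mk i) : Bo (Zb X1 X2 Y1 Y2) (be i) := by
  rcases N.side hi with ⟨y, m, h1, -⟩ | ⟨y, m, h1, -⟩
  · rw [h1]; exact bo_ve (Or.inl fun h => by have := (mem_Zb.1 h).1; omega)
  · rw [h1]; exact bo_ve (Or.inr fun h => by have := (mem_Zb.1 h).2.1; omega)

/-- and a tile inside -/
lemma Nms.bi (N : Nms X1 X2 Y1 Y2 r lf rf Mk be) (hX : X1 < X2) {i : ι} (hi : Mk i) :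
    lab (be i) ∈ Zb X1 X2 Y1 Y2 ∨ plab (be i) ∈ Zb X1 X2 Y1 Y2 := by
  rcases N.side hi with ⟨y, m, h1, h2, h3, -⟩ | ⟨y, m, h1, h2, h3, -⟩
  · have h4 : lt (X1, y) ∈ Zb X1 X2 Y1 Y2 := mem_Zb.2 ⟨le_rfl, hX, h2, h3⟩
    rw [h1]
    rcases tiles_ve X1 y with ⟨e1, e2⟩ | ⟨e1, e2⟩ <;> rw [e1, e2] <;> tauto
  · have h4 : lt (X2 - 1, y) ∈ Zb X1 X2 Y1 Y2 := mem_Zb.2 ⟨by omega, by omega, h2, h3⟩
    rw [h1]
    rcases tiles_ve X2 y with ⟨e1, e2⟩ | ⟨e1, e2⟩ <;> rw [e1, e2] <;> tauto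

/-- a name is not the end of the string -/
lemma Nms.ns (N : Nms X1 X2 Y1 Y2 r lf rf Mk be) (hX : X1 < X2) {i : ι} (hi : Mk i) :
    be i ≠ ve (X2, r) := by
  intro e
  rcases N.side hi with ⟨y, m, h1, -⟩ | ⟨y, m, h1, -, -, h2, -⟩
  · have := (ve_inj (h1.symm.trans e)).1; omega
  · exact h2 (ve_inj (h1.symm.trans e)).2

/-- **Every boundary corner joined to a name or to `z` is a name.** -/
theorem Lay.ins (A : Lay X1 X2 Y1 Y2 r c0 lf rf cb ct F L) (N : Nms X1 X2 Y1 Y2 r lf rf Mk be)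
    {t : ℤ × ℤ} (ht : t ∈ F) (ho : (t.1 + t.2) % 2 = 1) (htZ : t ∈ Zb X1 X2 Y1 Y2)
    (hw : (t.1 - 1, t.2 - 1) ∈ Zb X1 X2 Y1 Y2) :
    ∃ I : Set (ℤ × ℤ), eW t ∈ I ∧ (∀ i, Mk i → be i ∈ I) ∧
      (∀ c ∈ I, ∀ d, (GX X1 X2 Y1 Y2 F L).Adj c d → d ∈ I) ∧
      ∀ c ∈ I, (lab c ∉ Zb X1 X2 Y1 Y2 ∨ plab c ∉ Zb X1 X2 Y1 Y2) → ∃ i, Mk i ∧ c = be i := by
  have hX := A.hX
  refine ⟨{c | ∃ b, (b = eW t ∨ ∃ i, Mk i ∧ b = be i) ∧ (GX X1 X2 Y1 Y2 F L).Reachable b c},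
    ⟨eW t, Or.inl rfl, SimpleGraph.Reachable.refl _⟩,
    fun i hi => ⟨be i, Or.inr ⟨i, hi, rfl⟩, SimpleGraph.Reachable.refl _⟩, ?_, ?_⟩
  · rintro c ⟨b, hb, h⟩ d hd
    exact ⟨b, hb, h.trans hd.reachable⟩
  rintro c ⟨b, hb, h⟩ hout
  by_contra hno
  -- the tiles at `z`
  have hz1 : lab (eW t) ∈ Zb X1 X2 Y1 Y2 ∧ plab (eW t) ∈ Zb X1 X2 Y1 Y2 := by
    have h1 := of_side ho (eW t) (Or.inl rfl)
    have h2 := of_side (e := (t.1 - 1, t.2 - 1)) (by simp only; omega) (eW t)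
      (Or.inr (Or.inl (by unfold eW eE; simp)))
    have hne : ((t.1 - 1, t.2 - 1) : ℤ × ℤ) ≠ t := by
      intro h; have := congrArg Prod.fst h; simp only at this; omega
    rcases h1 with h1 | h1 <;> rcases h2 with h2 | h2
    · exact absurd (h2.trans h1.symm) hne
    · exact ⟨h1 ▸ htZ, h2 ▸ hw⟩
    · exact ⟨h2 ▸ hw, h1 ▸ htZ⟩
    · exact absurd (h2.trans h1.symm) hne
  have hbc : b ≠ c := by
    rintro rfl
    rcases hb with rfl | ⟨i, hi, rfl⟩
    · rcases hout with h1 | h1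
      · exact h1 hz1.1
      · exact h1 hz1.2
    · exact hno ⟨i, hi, rfl⟩
  have hadj : ∃ d, (GX X1 X2 Y1 Y2 F L).Adj d c := by
    have h2 := h
    rw [SimpleGraph.reachable_iff_reflTransGen] at h2
    cases h2 with
    | refl => exact absurd rfl hbc
    | tail _ hd => exact ⟨_, hd⟩
  obtain ⟨d, hd⟩ := hadj
  have hin : lab c ∈ Zb X1 X2 Y1 Y2 ∨ plab c ∈ Zb X1 X2 Y1 Y2 := by
    by_contra h3
    rw [not_or] at h3
    exact iso_out h3.1 h3.2 hd
  have hs : c ≠ ve (X2, r) := by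
    rintro rfl
    exact A.iso_s hd
  rcases A.partner N hin hout hs with h3 | ⟨c', h4, h5, h6, h7⟩
  · exact hno h3
  have hbe : IsEnd (GX X1 X2 Y1 Y2 F L) b := by
    rcases hb with rfl | ⟨i, hi, rfl⟩
    · exact isEnd_eW (mem_coe.2 ht) ho
    · exact isEnd_of_notMem (N.bo hi)
  have hce : IsEnd (GX X1 X2 Y1 Y2 F L) c := isEnd_of_notMem hout
  rcases ends_two SG_deg2 hbe hce (isEnd_of_notMem h5) h (h.trans h6) hbc with h8 | h8
  · rcases hb with rfl | ⟨i, hi, rfl⟩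
    · rw [h8] at h5
      rcases h5 with h5 | h5
      · exact h5 hz1.1
      · exact h5 hz1.2
    · exact h7 i hi h8.symm
  · exact h4 h8

end lay

end Pool.Agent.H43.W
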