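import Mathlib
import Pool.Agent.H43.W.Col
import Pool.Agent.H85.W.OutX
import Pool.Agent.H54.W.NatFT

set_option autoImplicit false
set_option linter.constructorNameAsVariable false
open Finset

/-! # T8 for the box of a room

`θ : Th C c0` (helper20), `B : BP C c0` the box, `(ow θ B).Full L` (helper85): the labels of `L` outside of the box
are the ones of the outside; `Fst B L` : the labels of the first layer of the box have the colours of the walls.
`twC` : the world of the string `(x, r)`, `x0 ≤ x < X2`. `val_C` : the value of the target corner is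
`al8 c0 + be8 c0 * Phi .. (PsT θ) L`. `t8_C` : the mean over the states of the string. -/

namespace Pool.Agent.H43.W

open Pool.Agent.H75.Perc hiding tau kk
open Pool.Agent.H75.TwoArm Pool.Agent.H33.Q1
open Pool.Agent.H13.W (eW eE eS eN SG TJ SG_adj lab_ne_plab SG_congr)
open Pool.Agent.H84.W (srow mem_srow wst DC Root ent tl ip qs eq_ent tl_ent)
open Pool.Agent.H85.W (Fw BP ow bk bk_eq bes_bk OZ ctW rtW kk pq pq_mk kk_mk pq_lt sv_eq_lah Ow Rg sv)
open Pool.Agent.H54.W (CD NE neK Zb mem_Zb lah PsT StT ok_neK neK_inj)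
open Pool.Agent.H20.W (Th Mk col crz)
open Pool.Agent.H21.W (ladt fillC DR mem_DR)
open Pool.Agent.H74.R45 (ve he)
open Pool.Agent.H74.W (tau)
open Pool.Agent.H62.W (Phi PhiG)
open Pool.Agent.Q1 (DCo Ec)

variable {C : CD} {c0 : Bool} {θ : Th C c0} {B : BP C c0} {x0 x y : ℤ} {L : Finset (ℤ × ℤ)}

/-! ### The string -/

/-- the string: row `r` of the box from the column `x0` -/
def strC (B : BP C c0) (x0 : ℤ) : Finset (ℤ × ℤ) := srow (lt (x0, B.r)) (B.X2 - x0).toNat

lemma mem_strC (h : x0 < B.X2) : lt (x, y) ∈ strC B x0 ↔ y = B.r ∧ x0 ≤ x ∧ x < B.X2 := by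
  unfold strC
  rw [mem_srow]
  constructor
  · rintro ⟨i, hi, he⟩
    have : lt (x, y) = lt (x0 + i, B.r) := by
      rw [he]
      unfold lt
      simp only [Prod.mk.injEq]
      omega
    have := lt_inj this
    simp only [Prod.mk.injEq] at this
    omega
  · rintro ⟨rfl, h1, h2⟩
    refine ⟨(x - x0).toNat, by omega, ?_⟩
    unfold lt
    simp only [Prod.mk.injEq]
    omega

lemma odd_strC {e : ℤ × ℤ} (h : e ∈ strC B x0) : (e.1 + e.2) % 2 = 1 := by
  unfold strC at h
  obtain ⟨i, -, rfl⟩ := mem_srow.1 h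
  unfold lt
  simp only
  omega

/-! ### Inequalities of the box -/

lemma n_pos (B : BP C c0) : 0 < B.n := by have := B.hn; omega

lemma nA (B : BP C c0) {Y : ℤ} (h0 : 0 ≤ Y) (h1 : Y < C.H) :
    B.X1 + 2 ≤ B.n * C.A Y ∧ B.n * C.A Y < B.X2 - 1 := by
  have h2 := C.lo Y h0 h1
  have h3 := C.AW Y h0 h1
  have h4 : B.n * C.LO ≤ B.n * C.A Y := mul_le_mul_of_nonneg_left h2 (n_pos B).le
  have h5 : B.n * C.A Y ≤ B.n * C.W := mul_le_mul_of_nonneg_left h3.le (n_pos B).le
  have := B.x1
  have := B.x2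
  omega

lemma X12 (B : BP C c0) : B.X1 + 3 < B.X2 := by
  have := nA B le_rfl C.H0
  omega

lemma Hpos (B : BP C c0) : 0 < B.n * C.H := mul_pos (n_pos B) C.H0

/-! ### Colours of the first layer -/

/-- colours of the left side -/
def lfC (B : BP C c0) (y : ℤ) : Bool :=
  if y < 0 then C.CB else if B.n * C.H ≤ y then C.CT else C.CL (y / B.n)

/-- colours of the right side -/
def rfC (B : BP C c0) (y : ℤ) : Bool :=
  if y < 0 then C.CB else if B.n * C.H ≤ y then C.CT else if y < B.r then c0 else !c0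

/-- **The labels of the first layer of the box have the colours of the walls.** -/
def Fst (B : BP C c0) (L : Finset (ℤ × ℤ)) : Prop := ∀ x y, B.X1 ≤ x → x < B.X2 → B.Y1 ≤ y → y < B.Y2 →
  (x = B.X1 ∨ x = B.X2 - 1 ∨ y = B.Y1 ∨ y = B.Y2 - 1) → ¬ (x = B.X2 - 1 ∧ y = B.r) →
  (lt (x, y) ∈ L ↔ fillC C B.n (crz c0 B.r) x y = true)

lemma fill_left : fillC C B.n (crz c0 B.r) B.X1 y = lfC B y := by
  unfold fillC lfC
  split_ifs with h1 h2 h3
  · rfl
  · rfl
  · rfl
  · exfalso
    have hr := CD.row_of (C := C) (n_pos B) (by omega : 0 ≤ y) (by omega)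
    have := nA B hr.1 hr.2
    omega

lemma fill_right : fillC C B.n (crz c0 B.r) (B.X2 - 1) y = rfC B y := by
  unfold fillC rfC crz
  by_cases h1 : y < 0
  · rw [if_pos h1, if_pos h1]
  rw [if_neg h1, if_neg h1]
  by_cases h2 : B.n * C.H ≤ y
  · rw [if_pos h2, if_pos h2]
  rw [if_neg h2, if_neg h2, if_neg]
  have hr := CD.row_of (C := C) (n_pos B) (by omega : 0 ≤ y) (by omega)
  have := nA B hr.1 hr.2
  omega

/-- the first layer -/
theorem layC (h : Fst B L) (h0 : B.X1 < x0) (h1 : x0 < B.X2) :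
    Lay B.X1 B.X2 B.Y1 B.Y2 B.r c0 (lfC B) (rfC B) C.CB C.CT (strC B x0) L where
  hX := by have := X12 B; omega
  r1 := by have := B.y1; have := B.r0; omega
  r2 := by have := B.y2; have := B.r1; omega
  left := fun y a b => ⟨fun hm => by have := (mem_strC h1).1 hm; omega, by
    rw [h B.X1 y le_rfl (by omega) a b (Or.inl rfl) (by have := X12 B; omega), fill_left]⟩
  right := fun y a b c => ⟨fun hm => by have := (mem_strC h1).1 hm; omega, by
    rw [h (B.X2 - 1) y (by omega) (by omega) a b (Or.inr (Or.inl rfl)) (by omega), fill_right]⟩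
  bot := fun x a b => by
    have := B.y1; have := B.y2; have := B.r0; have := Hpos B
    refine ⟨fun hm => by have := (mem_strC h1).1 hm; omega, ?_⟩
    rw [h x B.Y1 a b le_rfl (by omega) (Or.inr (Or.inr (Or.inl rfl))) (by omega)]
    unfold fillC
    rw [if_pos (by omega)]
  top := fun x a b => by
    have := B.y1; have := B.y2; have := B.r1; have := Hpos B
    refine ⟨fun hm => by have := (mem_strC h1).1 hm; omega, ?_⟩
    rw [h x (B.Y2 - 1) a b (by omega) (by omega) (Or.inr (Or.inr (Or.inr rfl))) (by omega)]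
    unfold fillC
    rw [if_neg (by omega), if_pos (by omega)]
  rc := by
    have := B.r0; have := B.r1
    unfold rfC
    rw [if_neg (by omega), if_neg (by omega), if_pos (by omega)]
  rd := by
    have := B.r0; have := B.r1
    unfold rfC
    rw [if_neg (by omega), if_neg (by omega), if_neg (by omega)]
  par := B.par
  str := (mem_strC h1).2 ⟨rfl, by omega, by omega⟩

/-! ### The names -/

lemma lc_eq (h1 : B.Y1 - 1 ≤ y) (h2 : y ≤ B.Y2) : B.lc y = lfC B y := by
  unfold Pool.Agent.H85.W.BP.lc lfC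
  have := B.y1; have := Hpos B
  rw [if_neg (by omega)]
  by_cases c1 : y < 0
  · rw [if_pos c1, if_pos c1]
  · rw [if_neg c1, if_neg c1]
    by_cases c2 : y < B.n * C.H
    · rw [if_pos c2, if_neg (by omega)]
    · rw [if_neg c2, if_pos h2, if_pos (by omega)]

/-- the name of a mark of the left side -/
lemma bk_l {k : ℤ} (hk : Mk C c0 k) (h0 : 0 ≤ k) (h1 : k ≤ C.H) :
    lfC B (B.n * k - 1) ≠ lfC B (B.n * k) ∧
      bk B k = lah B.X1 (B.n * k) (ladt (lfC B (B.n * k - 1)) B.X1 (B.n * k)) ∧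
      B.Y1 < B.n * k ∧ B.n * k < B.Y2 := by
  have h2 : 0 ≤ B.n * k := mul_nonneg (n_pos B).le h0
  have h3 : B.n * k ≤ B.n * C.H := mul_le_mul_of_nonneg_left h1 (n_pos B).le
  have a1 := B.y1; have a2 := B.y2
  have e : B.hgt k = B.n * k := by
    unfold Pool.Agent.H85.W.BP.hgt
    rw [if_neg (by omega), if_pos h1]
  have h4 := (B.lc_iff (y := B.n * k)).2 ⟨k, hk, e.symm⟩
  have e1 : B.lc (B.n * k - 1) = lfC B (B.n * k - 1) := lc_eq (by omega) (by omega)
  rw [e1, lc_eq (by omega) (by omega)] at h4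
  refine ⟨h4, ?_, by omega, by omega⟩
  unfold bk
  rw [Pool.Agent.H54.W.neK_mid h0 h1]
  have e2 : C.cLo k = lfC B (B.n * k - 1) := by
    unfold CD.cLo lfC
    by_cases c1 : k = 0
    · rw [if_pos c1, c1, mul_zero, if_pos (by omega)]
    · have h5 : B.n ≤ B.n * k := le_mul_of_one_le_right (n_pos B).le (by omega)
      have h8 := B.hn
      rw [if_neg c1, if_neg (by omega), if_neg (by omega)]
      congr 1
      exact (Pool.Agent.H54.W.ediv_eq (n_pos B) (by rw [mul_sub, mul_one]; omega)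
        (by rw [mul_sub, mul_one]; omega)).symm
  rw [← e2]
  rfl

lemma bk_b {k : ℤ} (hk : Mk C c0 k) (h0 : k < 0) :
    rfC B (0 - 1) ≠ rfC B 0 ∧ bk B k = lah B.X2 0 (ladt (rfC B (0 - 1)) B.X2 0) := by
  have a1 := B.r0; have a2 := B.r1; have a3 := Hpos B
  have hok := ok_neK hk
  rw [Pool.Agent.H54.W.neK_neg h0] at hok
  have e1 : rfC B (0 - 1) = C.CB := by unfold rfC; rw [if_pos (by omega)]
  have e2 : rfC B 0 = c0 := by
    unfold rfC; rw [if_neg (by omega), if_neg (by omega), if_pos (by omega)]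
  rw [e1, e2]
  refine ⟨hok, ?_⟩
  unfold bk
  rw [Pool.Agent.H54.W.neK_neg h0]
  rfl

lemma bk_t {k : ℤ} (hk : Mk C c0 k) (h0 : C.H < k) :
    rfC B (B.n * C.H - 1) ≠ rfC B (B.n * C.H) ∧
      bk B k = lah B.X2 (B.n * C.H) (ladt (rfC B (B.n * C.H - 1)) B.X2 (B.n * C.H)) := by
  have a1 := B.r0; have a2 := B.r1; have a3 := Hpos B
  have hok := ok_neK hk
  rw [Pool.Agent.H54.W.neK_big h0] at hok
  have hok' : C.CT = c0 := hok
  have e1 : rfC B (B.n * C.H - 1) = !c0 := by
    unfold rfC; rw [if_neg (by omega), if_neg (by omega), if_neg (by omega)]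
  have e2 : rfC B (B.n * C.H) = C.CT := by
    unfold rfC; rw [if_neg (by omega), if_pos (by omega)]
  rw [e1, e2, hok']
  refine ⟨by cases c0 <;> simp, ?_⟩
  unfold bk
  rw [Pool.Agent.H54.W.neK_big h0]
  rfl

/-- **The marks are the colour changes of the first layer.** -/
theorem nmsC : Nms B.X1 B.X2 B.Y1 B.Y2 B.r (lfC B) (rfC B) (Mk C c0) (bk B) where
  l := by
    intro m h1 h2 h3
    rw [← lc_eq (by omega) (by omega), ← lc_eq (by omega) (by omega)] at h3
    obtain ⟨k, hk, rfl⟩ := B.lc_iff.1 h3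
    have h4 : 0 ≤ k ∧ k ≤ C.H := by
      unfold Pool.Agent.H85.W.BP.hgt at h1 h2
      constructor
      · by_contra h
        rw [if_pos (by omega)] at h1
        omega
      · by_contra h
        have := hk.1
        have := C.H0
        rw [if_neg (by omega), if_neg (by omega)] at h2
        omega
    have e : B.hgt k = B.n * k := by
      unfold Pool.Agent.H85.W.BP.hgt
      rw [if_neg (by omega), if_pos h4.2]
    rw [e]
    exact ⟨k, hk, (bk_l hk h4.1 h4.2).2.1⟩
  rr := by
    intro m h1 h2 h3 h4 h5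
    have a1 := B.r0; have a2 := B.r1; have a3 := Hpos B; have a4 := C.H0
    have key : m = 0 ∨ m = B.n * C.H := by
      by_contra h
      rw [not_or] at h
      apply h5
      unfold rfC
      by_cases c1 : m < 0
      · rw [if_pos (by omega), if_pos c1]
      rw [if_neg (by omega), if_neg c1]
      by_cases c2 : B.n * C.H ≤ m
      · rw [if_pos (by omega), if_pos c2]
      rw [if_neg (by omega), if_neg c2]
      by_cases c3 : m < B.r
      · rw [if_pos (by omega), if_pos c3]
      · rw [if_neg (by omega), if_neg c3]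
    rcases key with rfl | rfl
    · have e1 : rfC B (0 - 1) = C.CB := by unfold rfC; rw [if_pos (by omega)]
      have e2 : rfC B 0 = c0 := by
        unfold rfC; rw [if_neg (by omega), if_neg (by omega), if_pos (by omega)]
      have hk : Mk C c0 (-1) := by
        rw [← Pool.Agent.H54.W.neK_ok (by omega) (by omega), Pool.Agent.H54.W.neK_neg (by omega)]
        rw [e1, e2] at h5
        exact h5
      exact ⟨-1, hk, (bk_b hk (by omega)).2⟩
    · have e1 : rfC B (B.n * C.H - 1) = !c0 := by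
        unfold rfC; rw [if_neg (by omega), if_neg (by omega), if_neg (by omega)]
      have e2 : rfC B (B.n * C.H) = C.CT := by
        unfold rfC; rw [if_neg (by omega), if_pos (by omega)]
      have hk : Mk C c0 (C.H + 1) := by
        rw [← Pool.Agent.H54.W.neK_ok (by omega) (by omega), Pool.Agent.H54.W.neK_big (by omega)]
        rw [e1, e2] at h5
        show C.CT = c0
        revert h5
        cases C.CT <;> cases c0 <;> simp
      exact ⟨C.H + 1, hk, (bk_t hk (by omega)).2⟩
  of := by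
    intro k hk
    have a1 := B.r0; have a2 := B.r1; have a3 := Hpos B; have a4 := B.y1; have a5 := B.y2
    by_cases h0 : k < 0
    · obtain ⟨h1, h2⟩ := bk_b (B := B) hk h0
      exact Or.inr ⟨0, by omega, by omega, by omega, by omega, h1, h2⟩
    by_cases h1 : k ≤ C.H
    · obtain ⟨h2, h3, h4, h5⟩ := bk_l (B := B) hk (by omega) h1
      exact Or.inl ⟨_, h4, h5, h2, h3⟩
    · obtain ⟨h1, h2⟩ := bk_t (B := B) hk (by omega)
      exact Or.inr ⟨B.n * C.H, by omega, by omega, by omega, by omega, h1, h2⟩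

/-! ### The instance -/

lemma bk_inj {k l : ℤ} (hk : Mk C c0 k) (hl : Mk C c0 l) (h : bk B k = bk B l) : k = l := by
  have hn := n_pos B
  have hX := X12 B
  have h8 := B.hn
  have aH := Hpos B
  -- heights
  rcases lt_or_ge k 0 with k0 | k0
  · rcases lt_or_ge l 0 with l0 | l0
    · have := hk.1; have := hl.1; omega
    exfalso
    obtain ⟨b1, b2⟩ := bk_b (B := B) hk k0
    obtain ⟨y, e1, e2⟩ := PV.of_name (X := B.X2) b1
    rcases lt_or_ge C.H l with l1 | l1
    · obtain ⟨d1, d2⟩ := bk_t (B := B) hl l1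
      obtain ⟨y', f1, f2⟩ := PV.of_name (X := B.X2) d1
      have := (ve_inj (e1.symm.trans (b2.symm.trans (h.trans (d2.trans f1))))).2
      have := e2.1; have := f2.1
      have : B.n * 1 ≤ B.n * C.H := mul_le_mul_of_nonneg_left C.H0 hn.le
      omega
    · obtain ⟨d1, d2, -, -⟩ := bk_l (B := B) hl l0 l1
      obtain ⟨y', f1, f2⟩ := PV.of_name (X := B.X1) d1
      have := (ve_inj (e1.symm.trans (b2.symm.trans (h.trans (d2.trans f1))))).1
      omega
  · rcases lt_or_ge C.H k with k1 | k1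
    · obtain ⟨b1, b2⟩ := bk_t (B := B) hk k1
      obtain ⟨y, e1, e2⟩ := PV.of_name (X := B.X2) b1
      rcases lt_or_ge C.H l with l1 | l1
      · have := hk.2.1; have := hl.2.1; omega
      exfalso
      rcases lt_or_ge l 0 with l0 | l0
      · obtain ⟨d1, d2⟩ := bk_b (B := B) hl l0
        obtain ⟨y', f1, f2⟩ := PV.of_name (X := B.X2) d1
        have := (ve_inj (e1.symm.trans (b2.symm.trans (h.trans (d2.trans f1))))).2
        have := e2.1; have := f2.1
        have : B.n * 1 ≤ B.n * C.H := mul_le_mul_of_nonneg_left C.H0 hn.le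
        omega
      · obtain ⟨d1, d2, -, -⟩ := bk_l (B := B) hl l0 l1
        obtain ⟨y', f1, f2⟩ := PV.of_name (X := B.X1) d1
        have := (ve_inj (e1.symm.trans (b2.symm.trans (h.trans (d2.trans f1))))).1
        omega
    · obtain ⟨b1, b2, -, -⟩ := bk_l (B := B) hk k0 k1
      obtain ⟨y, e1, e2⟩ := PV.of_name (X := B.X1) b1
      rcases lt_or_ge l 0 with l0 | l0
      · exfalso
        obtain ⟨d1, d2⟩ := bk_b (B := B) hl l0
        obtain ⟨y', f1, f2⟩ := PV.of_name (X := B.X2) d1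
        have := (ve_inj (e1.symm.trans (b2.symm.trans (h.trans (d2.trans f1))))).1
        omega
      rcases lt_or_ge C.H l with l1 | l1
      · exfalso
        obtain ⟨d1, d2⟩ := bk_t (B := B) hl l1
        obtain ⟨y', f1, f2⟩ := PV.of_name (X := B.X2) d1
        have := (ve_inj (e1.symm.trans (b2.symm.trans (h.trans (d2.trans f1))))).1
        omega
      obtain ⟨d1, d2, -, -⟩ := bk_l (B := B) hl l0 l1
      obtain ⟨y', f1, f2⟩ := PV.of_name (X := B.X1) d1
      have e3 := (ve_inj (e1.symm.trans (b2.symm.trans (h.trans (d2.trans f1))))).2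
      have e4 := e2.1; have e5 := f2.1
      rcases lt_trichotomy k l with h1 | h1 | h1
      · have : B.n * (k + 1) ≤ B.n * l := mul_le_mul_of_nonneg_left h1 hn.le
        rw [mul_add, mul_one] at this
        omega
      · exact h1
      · have : B.n * (l + 1) ≤ B.n * k := mul_le_mul_of_nonneg_left h1 hn.le
        rw [mul_add, mul_one] at this
        omega

/-- the end of the string, directed -/
lemma wst_eq (h1 : x0 < B.X2) :
    wst ((lt (x0, B.r)).1 + ((B.X2 - x0).toNat : ℤ), (lt (x0, B.r)).2 + ((B.X2 - x0).toNat : ℤ)) =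
      (ve (B.X2, B.r), c0) := by
  have e0 : ((lt (x0, B.r)).1 + ((B.X2 - x0).toNat : ℤ), (lt (x0, B.r)).2 + ((B.X2 - x0).toNat : ℤ)) =
      lt (B.X2, B.r) := by
    unfold lt
    simp only [Prod.mk.injEq]
    omega
  rw [e0]
  have ht : tl ((ve (B.X2, B.r), c0) : DC) = lt (B.X2 - 1, B.r) := by
    have hp := B.par
    cases c0
    · exact Pool.Agent.H74.R45.plab_ve_E (by simpa using hp)
    · exact Pool.Agent.H74.R45.lab_ve_W (by simpa using hp)
  have e1 : ((lt (B.X2, B.r)).1 - 1, (lt (B.X2, B.r)).2 - 1) = lt (B.X2 - 1, B.r) := by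
    unfold lt; simp only [Prod.mk.injEq]; omega
  unfold wst
  rw [e1]
  obtain ⟨p, hp⟩ := eq_ent ht
  have h2 := congrArg Prod.fst hp
  have h3 : Pool.Agent.H84.W.sd (lt (B.X2 - 1, B.r)) .E = ve (B.X2, B.r) := by
    show eE (lt (B.X2 - 1, B.r)) = ve (B.X2, B.r)
    unfold eE lt ve; simp only [Prod.mk.injEq]; omega
  have h4 : p = .E := Pool.Agent.H84.W.sd_inj (h2.symm.trans h3.symm)
  rw [hp, h4]

lemma str_sub (h0 : B.X1 < x0) (h1 : x0 < B.X2) : ∀ e ∈ strC B x0, e ∈ Zb B.X1 B.X2 B.Y1 B.Y2 := by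
  intro e he
  obtain ⟨x, y, rfl⟩ := Pool.Agent.H74.R45.exists_lt (odd_strC he)
  obtain ⟨rfl, h2, h3⟩ := (mem_strC h1).1 he
  have := B.y1; have := B.y2; have := B.r0; have := B.r1
  exact mem_Zb.2 ⟨by omega, h3, by omega, by omega⟩

/-- **The world of the string.** -/
theorem twC (hL : (ow θ B).Full L) (h : Fst B L) (h0 : B.X1 < x0) (h1 : x0 < B.X2) :
    TW (Zb B.X1 B.X2 B.Y1 B.Y2) (lt (x0, B.r)) (B.X2 - x0).toNat L (Mk C c0) θ.m (bk B) (kk θ)
      (pq θ).1 (pq θ).2 (rtW B, c0) 1 (ctW θ B) := by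
  have a1 := B.r0; have a2 := B.r1; have a3 := Hpos B; have a4 := B.y1; have a5 := B.y2
  have hsub := str_sub (B := B) h0 h1
  have hS : ∀ e ∈ (Zb B.X1 B.X2 B.Y1 B.Y2)ᶜ, e ∉ strC B x0 := fun e he hm => he (hsub e hm)
  have hN := nmsC (B := B)
  have hA := layC h h0 h1
  have hk := kk_mk (θ := θ)
  have hpq := pq_mk (θ := θ)
  have hlt := pq_lt (θ := θ)
  have hse : se (lt (x0, B.r)) (B.X2 - x0).toNat = ve (B.X2, B.r) := by
    unfold se; rw [wst_eq h1]
  have hmem : lt (x0, B.r) ∈ strC B x0 := (mem_strC h1).2 ⟨rfl, le_rfl, h1⟩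
  have hne := θ.ord
  have hw : ((lt (x0, B.r)).1 - 1, (lt (x0, B.r)).2 - 1) = lt (x0 - 1, B.r) := by
    unfold lt; simp only [Prod.mk.injEq]; omega
  have hwm : lt (x0 - 1, B.r) ∈ Zb B.X1 B.X2 B.Y1 B.Y2 := mem_Zb.2 ⟨by omega, by omega, by omega, by omega⟩
  refine
    { odd := lt_odd _
      pos := by omega
      sub := hsub
      west := by rw [hw]; exact hwm
      east := ?_
      inj := fun i j hi hj e => bk_inj hi hj e
      mm := θ.mm
      inv := θ.inv
      fx := ?_
      nk := hk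
      np := hpq.1
      nq := hpq.2
      kp := ?_
      kq := ?_
      pq := by omega
      nb := fun i hi => hN.bi hA.hX hi
      no := fun i hi => hN.bo hi
      ns := fun i hi => by rw [hse]; exact hN.ns hA.hX hi
      ins := ?_
      arc := ?_
      ext := ?_
      root := ?_
      rout := ?_
      R1 := Pool.Agent.H85.W.rtW_out.1
      R2 := Pool.Agent.H85.W.rtW_out.2
      tq := Rn.of_Fw hS (Pool.Agent.H85.W.tgt_fw hL).1
      tp := Rn.of_Fw hS (Pool.Agent.H85.W.tgt_fw hL).2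
      c1 := Pool.Agent.H85.W.ctW_out.1
      c2 := Pool.Agent.H85.W.ctW_out.2 }
  · have e0 : ((lt (x0, B.r)).1 + ((B.X2 - x0).toNat : ℤ), (lt (x0, B.r)).2 + ((B.X2 - x0).toNat : ℤ)) =
        lt (B.X2, B.r) := by
      unfold lt
      simp only [Prod.mk.injEq]
      omega
    rw [e0, mem_Zb]; omega
  · intro i hi
    rw [θ.fx i hi]
    constructor
    · rintro ⟨j, rfl⟩
      unfold kk pq
      fin_cases j <;> split_ifs <;> simp
    · unfold kk pq
      split_ifs <;> rintro (rfl | rfl | rfl) <;> exact ⟨_, rfl⟩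
  · unfold kk pq
    split_ifs <;> simp only <;> omega
  · unfold kk pq
    split_ifs <;> simp only <;> omega
  · exact hA.ins hN hmem (lt_odd _) (hsub _ hmem) (by rw [hw]; exact hwm)
  · intro i hi hm
    rcases Pool.Agent.H85.W.arc_fw hL hi hm with h2 | h2
    · exact ⟨true, Rn.of_Fw hS h2⟩
    · exact ⟨false, Rn.of_Fw' hS h2⟩
  · rcases Bool.eq_false_or_eq_true c0 with hc | hc
    · subst hc
      exact Rn.of_Fw hS (Pool.Agent.H85.W.exit_b hL rfl).1
    · subst hc
      exact Rn.of_Fw' hS (Pool.Agent.H85.W.exit_w hL rfl).2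
  · have hR := Pool.Agent.H85.W.rtW_out (B := B)
    refine ⟨?_, ?_⟩
    · rw [wst_eq h1, Function.iterate_one]
      rcases Bool.eq_false_or_eq_true c0 with hc | hc
      · subst hc
        have h2 := Pool.Agent.H85.W.root_b hL rfl
        have h3 : lab (rtW B) ∉ srow (lt (x0, B.r)) (B.X2 - x0).toNat := fun hm => hR.1 (hsub _ hm)
        simp [ip, h3, h2]
      · subst hc
        have h2 := Pool.Agent.H85.W.root_w hL rfl
        have h3 : plab (rtW B) ∉ srow (lt (x0, B.r)) (B.X2 - x0).toNat := fun hm => hR.2 (hsub _ hm)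
        have h4 : pv L (rtW B) = ve (B.X2, B.r) := by rw [← h2, pv_nx]
        simp [ip, h3, h4]
    · intro i hi hm
      have : i = 0 := by omega
      subst this
      have h4 := hsub _ hm
      rcases tl_cases ((rtW B, c0) : DC) with ⟨h5, -⟩ | ⟨h5, -⟩
      · exact hR.1 (h5 ▸ h4)
      · exact hR.2 (h5 ▸ h4)
  · have hR := Pool.Agent.H85.W.rtW_out (B := B)
    intro i hi h4
    have : i = 0 := by omega
    subst this
    rcases tl_cases ((rtW B, c0) : DC) with ⟨h5, -⟩ | ⟨h5, -⟩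
    · exact hR.1 (h5 ▸ h4)
    · exact hR.2 (h5 ▸ h4)

/-! ### The names and the graph -/

/-- the graph of the box -/
lemma SG_str (h1 : x0 < B.X2) : SG (Zb B.X1 B.X2 B.Y1 B.Y2) ↑(strC B x0) L =
    SG (Zb B.X1 B.X2 B.Y1 B.Y2) (DR x0 B.r) L := by
  refine SG_congr ?_ fun _ _ _ => Iff.rfl
  rintro e ⟨⟨x, y⟩, h2, rfl⟩
  rw [mem_coe, mem_strC h1, mem_DR]
  constructor
  · exact fun h => ⟨h.1, h.2.1⟩
  · exact fun h => ⟨h.1, h.2, h2.2.1⟩

/-- **Connections with arcs outside = connections of the names.** -/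
theorem reach_iff (θ : Th C c0) (h1 : x0 < B.X2) {a : NE} (ha : C.ok c0 a) :
    (SG (Zb B.X1 B.X2 B.Y1 B.Y2) ↑(strC B x0) L ⊔ AG (Mk C c0) θ.m (bk B)).Reachable
        (eW (lt (x0, B.r))) (C.be B.n c0 x0 B.r B.X1 B.X2 a) ↔
      Relation.ReflTransGen (StT θ fun i j => (SG (Zb B.X1 B.X2 B.Y1 B.Y2) (DR x0 B.r) L).Reachable
        (C.be B.n c0 x0 B.r B.X1 B.X2 i) (C.be B.n c0 x0 B.r B.X1 B.X2 j)) NE.z a := by
  rw [SG_str h1]
  set G0 := SG (Zb B.X1 B.X2 B.Y1 B.Y2) (DR x0 B.r) L with hG0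
  constructor
  · intro h
    rw [SimpleGraph.reachable_iff_reflTransGen] at h
    have key : ∀ c, Relation.ReflTransGen (G0 ⊔ AG (Mk C c0) θ.m (bk B)).Adj (eW (lt (x0, B.r))) c →
        ∃ b, C.ok c0 b ∧ Relation.ReflTransGen (StT θ fun i j => G0.Reachable
          (C.be B.n c0 x0 B.r B.X1 B.X2 i) (C.be B.n c0 x0 B.r B.X1 B.X2 j)) NE.z b ∧
          G0.Reachable (C.be B.n c0 x0 B.r B.X1 B.X2 b) c := by
      intro c hc
      induction hc with
      | refl => exact ⟨NE.z, trivial, Relation.ReflTransGen.refl, SimpleGraph.Reachable.refl _⟩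
      | @tail c c' _ hs ih =>
        obtain ⟨b, hb, h1, h2⟩ := ih
        rw [SimpleGraph.sup_adj] at hs
        rcases hs with hs | hs
        · exact ⟨b, hb, h1, h2.trans hs.reachable⟩
        · rw [AG, SimpleGraph.fromRel_adj] at hs
          obtain ⟨k, hk, e1, e2⟩ : ∃ k, Mk C c0 k ∧ c = bk B k ∧ c' = bk B (θ.m k) := by
            rcases hs.2 with ⟨k, hk, e1, e2⟩ | ⟨k, hk, e1, e2⟩
            · exact ⟨k, hk, e1, e2⟩
            · exact ⟨θ.m k, θ.mm k hk, e2, by rw [θ.inv k hk]; exact e1⟩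
          have hk' := θ.mm k hk
          rw [e1, bk_eq x0] at h2
          refine ⟨neK C (θ.m k), ok_neK hk', (h1.tail (Or.inl ⟨hb, ok_neK hk, h2⟩)).tail
            (Or.inr ⟨k, hk, rfl, rfl⟩), ?_⟩
          rw [e2, bk_eq x0]
    obtain ⟨b, hb, h1, h2⟩ := key _ h
    exact h1.tail (Or.inl ⟨hb, ha, h2⟩)
  · intro h
    have key : ∀ b, Relation.ReflTransGen (StT θ fun i j => G0.Reachable
          (C.be B.n c0 x0 B.r B.X1 B.X2 i) (C.be B.n c0 x0 B.r B.X1 B.X2 j)) NE.z b →
        (G0 ⊔ AG (Mk C c0) θ.m (bk B)).Reachable (eW (lt (x0, B.r)))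
          (C.be B.n c0 x0 B.r B.X1 B.X2 b) := by
      intro b hb
      induction hb with
      | refl => exact SimpleGraph.Reachable.refl _
      | @tail b b' _ hs ih =>
        refine ih.trans ?_
        rcases hs with ⟨-, -, h2⟩ | ⟨k, hk, rfl, rfl⟩
        · exact SimpleGraph.Reachable.mono le_sup_left h2
        · rw [← bk_eq x0, ← bk_eq x0]
          by_cases e : bk B k = bk B (θ.m k)
          · rw [e]
          · refine SimpleGraph.Adj.reachable (Or.inr ?_)
            rw [AG, SimpleGraph.fromRel_adj]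
            exact ⟨e, Or.inl ⟨k, hk, rfl, rfl⟩⟩
    exact key a h

open Classical in
/-- the functional of helper62 -/
theorem Phi_eq (h1 : x0 < B.X2) : Phi C B.n c0 x0 B.r B.X1 B.X2 B.Y1 B.Y2 (PsT θ) L =
    ∑ j : Fin 3, tau ^ (j : ℕ) *
      (if (SG (Zb B.X1 B.X2 B.Y1 B.Y2) ↑(strC B x0) L ⊔ AG (Mk C c0) θ.m (bk B)).Reachable
        (eW (lt (x0, B.r))) (bk B (θ.x j)) then 1 else 0) := by
  unfold Phi PhiG PsT
  refine sum_congr rfl fun j _ => ?_
  have h2 := reach_iff (B := B) (x0 := x0) (L := L) θ h1 (ok_neK (θ.xm j))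
  rw [← bk_eq x0] at h2
  simp only [h2]

/-- **The value of the target corner.** -/
theorem val_C (hL : (ow θ B).Full L) (h : Fst B L) (h0 : B.X1 < x0) (h1 : x0 < B.X2) :
    Pool.Agent.H84.W.val (-tau) (-tau ^ 2) (strC B x0) L (rtW B, c0) (ctW θ B) =
      al8 c0 + be8 c0 * Phi C B.n c0 x0 B.r B.X1 B.X2 B.Y1 B.Y2 (PsT θ) L := by
  classical
  have T := twC hL h h0 h1
  have h2 := T.val_sum (x := θ.x) ?_
  · rw [Phi_eq h1]
    exact h2
  · unfold kk pq
    rcases Bool.eq_false_or_eq_true c0 with hc | hc <;> subst hc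
    · right; exact ⟨rfl, rfl, rfl, rfl⟩
    · left; exact ⟨rfl, rfl, rfl, rfl⟩

open Classical in
/-- **T8 for the box of a room.** For every configuration `L` off the string with the right labels in the first
layer of the box and outside: the mean over the states of the string (weights `-τ`, `-τ²`) of the indicator
that the target corner is on the loop of the root corner. -/
theorem t8_C (hL : (ow θ B).Full L) (h : Fst B L) (h0 : B.X1 < x0) (h1 : x0 < B.X2)
    (ho : ∀ e ∈ L, (e.1 + e.2) % 2 = 1) (hd : Disjoint (strC B x0) L) :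
    Ec (qs (-tau) (-tau ^ 2)) (strC B x0)
      (fun σ => if InOrb (nx (L ∪ σ)) (rtW B) (ctW θ B) then (1 : ℂ) else 0) =
      al8 c0 + be8 c0 * Phi C B.n c0 x0 B.r B.X1 B.X2 B.Y1 B.Y2 (PsT θ) L := by
  have T := twC hL h h0 h1
  have hdco : DCo (strC B x0 ∪ L) (fi (ctW θ B)) (fi (rtW B)) := by
    refine Pool.Agent.H85.W.dco_ct (θ := θ) (B := B) ?_ ?_
    · intro x y hb he
      rcases mem_union.1 he with he | he
      · exact absurd (mem_Zb.1 (str_sub h0 h1 _ he)) hb
      · exact hL.sub x y hb he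
    · intro e he
      rcases mem_union.1 he with he | he
      · exact odd_strC he
      · exact ho e he
  have h2 := Pool.Agent.H84.W.str_val tau_ab.1 tau_ab.2 hdco (B.X2 - x0).toNat (lt (x0, B.r)) L T.odd hd
    (by exact Finset.Subset.refl _) T.root
  rw [← val_C hL h h0 h1]
  exact h2

end Pool.Agent.H43.W
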