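import Mathlib
import Pool.Agent.H43.W.T8C
import Pool.Agent.H84.W.Seam3

set_option autoImplicit false
set_option linter.constructorNameAsVariable false
open Finset

/-! # T8 for a string which ends at a wall column inside the box

The tiles `(x, r)`, `s ≤ x ≤ w`, are frozen; the tiles `(x, r)`, `w < x < X2`, are in arbitrary states; the rows
`r - 1` and `r + 1` have the colours `c0` and `!c0` in the columns `w ≤ x < X2`. By induction on the number of pairs
of tiles behind the string (seam of helper84) the frozen mean is the value of the string up to the side of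
the box. `short_C` : T8 for this string. -/

namespace Pool.Agent.H43.W

open Pool.Agent.H75.Perc hiding tau kk
open Pool.Agent.H75.TwoArm Pool.Agent.H33.Q1
open Pool.Agent.H13.W (eW eE eS eN SG TJ SG_adj lab_ne_plab SG_congr)
open Pool.Agent.H84.W (srow mem_srow wst DC Root ent tl ip qs eq_ent tl_ent Seam seam_lt IntS TilS not_intS
  nb nb_lt srow_lt end_lt root_short val_seam seam_sum1 str_val srow_succ' end_notMem)
open Pool.Agent.H85.W (Fw BP ow bk bk_eq bes_bk OZ ctW rtW kk pq pq_mk kk_mk pq_lt sv_eq_lah Ow Rg sv)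
open Pool.Agent.H54.W (CD NE neK Zb mem_Zb lah PsT StT ok_neK neK_inj)
open Pool.Agent.H20.W (Th Mk col crz)
open Pool.Agent.H21.W (ladt fillC DR mem_DR)
open Pool.Agent.H74.R45 (ve he)
open Pool.Agent.H74.W (tau)
open Pool.Agent.H62.W (Phi PhiG)
open Pool.Agent.Q1 (DCo Ec)

section tile

variable {L : Finset (ℤ × ℤ)} {s r X : ℤ} {c0 : Bool} {m : ℕ} {R : DC} {c : ℤ × ℤ} {a b : ℂ}

/-- colours `c0` below the row `r` and `!c0` above it in the columns `x1 ≤ x < x2` -/
def Rws (L : Finset (ℤ × ℤ)) (c0 : Bool) (r x1 x2 : ℤ) : Prop := ∀ x, x1 ≤ x → x < x2 →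
  (lt (x, r - 1) ∈ L ↔ c0 = true) ∧ (lt (x, r + 1) ∈ L ↔ c0 = false)

lemma srow_notMem {x y : ℤ} (hy : y ≠ r) : lt (x, y) ∉ srow (lt (s, r)) m := by
  rw [srow_lt]
  rintro ⟨x', -, -, h⟩
  have := lt_inj h
  simp only [Prod.mk.injEq] at this
  exact hy this.2

/-- the seam at the column `s + m` for a string of `m + i` tiles, `i = 0` or `i ≥ 2` -/
lemma seam_of (par : (s + m + r) % 2 = if c0 then 0 else 1) (hr : Rws L c0 r (s + m) (s + m + 2)) :
    Seam (srow (lt (s, r)) (m + 2)) L (lt (s + m, r)) := by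
  refine seam_lt par ?_ (fun x h1 h2 => (hr x h1 (by omega)).1) (fun x h1 h2 => (hr x h1 (by omega)).2) ?_
  · exact fun x _ _ => ⟨srow_notMem (by omega), srow_notMem (by omega)⟩
  · left
    rw [srow_lt, srow_lt]
    exact ⟨⟨_, by omega, by push_cast; omega, rfl⟩, ⟨_, by omega, by push_cast; omega, rfl⟩⟩

lemma seam_of0 (par : (s + m + r) % 2 = if c0 then 0 else 1) (hr : Rws L c0 r (s + m) (s + m + 2)) :
    Seam (srow (lt (s, r)) m) L (lt (s + m, r)) := by
  refine seam_lt par ?_ (fun x h1 h2 => (hr x h1 (by omega)).1) (fun x h1 h2 => (hr x h1 (by omega)).2) ?_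
  · exact fun x _ _ => ⟨srow_notMem (by omega), srow_notMem (by omega)⟩
  · right
    rw [srow_lt, srow_lt]
    constructor
    · rintro ⟨x', h1, h2, h3⟩
      have := lt_inj h3
      simp only [Prod.mk.injEq] at this
      omega
    · rintro ⟨x', h1, h2, h3⟩
      have := lt_inj h3
      simp only [Prod.mk.injEq] at this
      omega

/-- **The value does not see the length of the string beyond the wall.** -/
theorem val_long (j : ℕ) : ∀ {k : ℕ}, (s + m + r) % 2 = (if c0 then 0 else 1) →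
    Rws L c0 r (s + m) (s + m + 2 * j) →
    (∀ X, s + m ≤ X → X + 1 < s + m + 2 * j → ¬ IntS (lt (X, r)) R.1 ∧ ¬ IntS (lt (X, r)) c) →
    Root (srow (lt (s, r)) (m + 2 * j)) L
      ((lt (s, r)).1 + ((m + 2 * j : ℕ) : ℤ), (lt (s, r)).2 + ((m + 2 * j : ℕ) : ℤ)) R k →
    ∃ k', Root (srow (lt (s, r)) m) L ((lt (s, r)).1 + (m : ℤ), (lt (s, r)).2 + (m : ℤ)) R k' ∧
      Pool.Agent.H84.W.val a b (srow (lt (s, r)) m) L R c =
        Pool.Agent.H84.W.val a b (srow (lt (s, r)) (m + 2 * j)) L R c := by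
  induction j with
  | zero =>
    intro k _ _ _ hR
    exact ⟨k, by simpa using hR, by simp⟩
  | succ j ih =>
    intro k par hr hi hR
    have e1 : m + 2 * (j + 1) = (m + 2 * j) + 2 := by ring
    rw [e1] at hR ⊢
    have par' : (s + ((m + 2 * j : ℕ) : ℤ) + r) % 2 = if c0 then 0 else 1 := by
      rw [← par]; push_cast; omega
    have hr' : Rws L c0 r (s + ((m + 2 * j : ℕ) : ℤ)) (s + ((m + 2 * j : ℕ) : ℤ) + 2) := by
      intro x h1 h2
      push_cast at h1 h2
      exact hr x (by omega) (by push_cast; omega)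
    have hS := seam_of (s := s) (m := m + 2 * j) par' hr'
    have hS0 := seam_of0 (s := s) (m := m + 2 * j) par' hr'
    have hq : ((lt (s, r)).1 + ((m + 2 * j : ℕ) : ℤ), (lt (s, r)).2 + ((m + 2 * j : ℕ) : ℤ)) =
        lt (s + ((m + 2 * j : ℕ) : ℤ), r) := end_lt _ _ _
    have hint := hi (s + ((m + 2 * j : ℕ) : ℤ)) (by push_cast; omega) (by push_cast; omega)
    rw [← hq] at hS hS0 hint
    obtain ⟨k1, hk1⟩ := root_short (L' := L) hS hR (fun _ _ _ => Iff.rfl)
    have hv := val_seam hS hS0 ?_ (fun _ _ _ => Iff.rfl) hint.1 hint.2 a b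
    · obtain ⟨k2, hk2, hv2⟩ := ih (k := k1) par
        (fun x h1 h2 => hr x h1 (by push_cast; omega))
        (fun X h1 h2 => hi X h1 (by push_cast; omega)) hk1
      exact ⟨k2, hk2, by rw [hv2, hv]⟩
    · intro e h3 h4
      have h5 : nb ((lt (s, r)).1 + ((m + 2 * j : ℕ) : ℤ), (lt (s, r)).2 + ((m + 2 * j : ℕ) : ℤ)) .E =
          ((lt (s, r)).1 + ((m + 2 * j + 1 : ℕ) : ℤ), (lt (s, r)).2 + ((m + 2 * j + 1 : ℕ) : ℤ)) := by
        refine Prod.ext ?_ ?_ <;> simp only [nb] <;> push_cast <;> ring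
      rw [h5] at h4
      rw [srow_succ', srow_succ', mem_insert, mem_insert]
      tauto

end tile

variable {C : CD} {c0 : Bool} {θ : Th C c0} {B : BP C c0} {s w x y : ℤ} {L : Finset (ℤ × ℤ)}

/-- a tile of a seam is in the box -/
lemma til_box {X : ℤ} (h1 : B.X1 ≤ X) (h2 : X + 1 < B.X2) {e : ℤ × ℤ} (h : TilS (lt (X, B.r)) e) :
    e ∈ Zb B.X1 B.X2 B.Y1 B.Y2 := by
  have a1 := B.y1; have a2 := B.y2; have a3 := B.r0; have a4 := B.r1
  obtain ⟨-, bE, bS, bN⟩ := nb_lt X B.r
  obtain ⟨-, -, cS, cN⟩ := nb_lt (X + 1) B.r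
  unfold TilS at h
  rw [bE, bN, bS, cN, cS] at h
  rcases h with rfl | rfl | rfl | rfl | rfl | rfl <;> rw [mem_Zb] <;> omega

/-- corners off the box are not inside a seam -/
lemma not_int_of {X : ℤ} (h1 : B.X1 ≤ X) (h2 : X + 1 < B.X2) {c : ℤ × ℤ}
    (hc : lab c ∉ Zb B.X1 B.X2 B.Y1 B.Y2) : ¬ IntS (lt (X, B.r)) c :=
  not_intS (lt_odd _) (Or.inl fun h => hc (til_box h1 h2 h))

open Classical in
/-- **T8 for the string up to a wall column `w` inside the box.** The tiles `(x, r)`, `w < x < X2`, are fixed in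
any states. -/
theorem short_C (hL : (ow θ B).Full L) (h : Fst B L) (h0 : B.X1 < s) (hs : s ≤ w) (hw : w < B.X2)
    (hr : Rws L c0 B.r w B.X2) (ho : ∀ e ∈ L, (e.1 + e.2) % 2 = 1)
    (hd : ∀ x, s ≤ x → x ≤ w → lt (x, B.r) ∉ L) :
    Ec (qs (-tau) (-tau ^ 2)) (srow (lt (s, B.r)) (w + 1 - s).toNat)
      (fun σ => if InOrb (nx (L ∪ σ)) (rtW B) (ctW θ B) then (1 : ℂ) else 0) =
      al8 c0 + be8 c0 * Phi C B.n c0 s B.r B.X1 B.X2 B.Y1 B.Y2 (PsT θ) L := by
  have hp := B.par
  have T := twC hL h h0 (by omega : s < B.X2)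
  have hR := Pool.Agent.H85.W.rtW_out (B := B)
  have hc := Pool.Agent.H85.W.ctW_out (θ := θ) (B := B)
  rw [← val_C hL h h0 (by omega : s < B.X2)]
  unfold strC
  obtain ⟨m, hm⟩ : ∃ m : ℕ, w + 1 - s = m := ⟨(w + 1 - s).toNat, by omega⟩
  have hm1 : 1 ≤ m := by omega
  have em : (w + 1 - s).toNat = m := by omega
  rw [em]
  have hdis : ∀ m' : ℕ, m' ≤ m → Disjoint (srow (lt (s, B.r)) m') L := by
    intro m' hm'
    rw [disjoint_left]
    intro e he
    rw [srow_lt] at he
    obtain ⟨x', h1, h2, rfl⟩ := he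
    exact hd x' h1 (by omega)
  have hdco : DCo (srow (lt (s, B.r)) m ∪ L) (fi (ctW θ B)) (fi (rtW B)) := by
    refine Pool.Agent.H85.W.dco_ct (θ := θ) (B := B) ?_ ?_
    · intro x y hb he
      rcases mem_union.1 he with he | he
      · rw [srow_lt] at he
        obtain ⟨x', h1, h2, h3⟩ := he
        have := lt_inj h3
        simp only [Prod.mk.injEq] at this
        refine absurd ?_ hb
        have a1 := B.y1; have a2 := B.y2; have a3 := B.r0; have a4 := B.r1
        show B.X1 ≤ x ∧ x < B.X2 ∧ B.Y1 ≤ y ∧ y < B.Y2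
        omega
      · exact hL.sub x y hb he
    · intro e he
      rcases mem_union.1 he with he | he
      · rw [srow_lt] at he
        obtain ⟨x', -, -, rfl⟩ := he
        exact lt_odd _
      · exact ho e he
  have hroot := T.root
  rcases Int.emod_two_eq_zero_or_one (B.X2 - (w + 1)) with h2 | h2
  · -- an even number of fixed tiles
    obtain ⟨j, hj⟩ : ∃ j : ℕ, B.X2 - (w + 1) = 2 * j := ⟨((B.X2 - (w + 1)) / 2).toNat, by omega⟩
    have e2 : (B.X2 - s).toNat = m + 2 * j := by omega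
    rw [e2] at hroot ⊢
    have par : (s + m + B.r) % 2 = if c0 then 0 else 1 := by rw [← hp]; omega
    obtain ⟨k', hk', hv⟩ := val_long (a := -tau) (b := -tau ^ 2) (c := ctW θ B) j par
      (fun x h1 h2 => hr x (by omega) (by omega))
      (fun X h1 h2 => ⟨not_int_of (by omega) (by omega) hR.1, not_int_of (by omega) (by omega) hc.1⟩) hroot
    rw [← hv]
    exact str_val tau_ab.1 tau_ab.2 hdco m (lt (s, B.r)) L (lt_odd _) (hdis m le_rfl)
      (Finset.Subset.refl _) hk'
  · -- an odd number of fixed tiles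
    obtain ⟨j, hj⟩ : ∃ j : ℕ, B.X2 - (w + 1) = 2 * j + 1 := ⟨((B.X2 - (w + 1)) / 2).toNat, by omega⟩
    have e2 : (B.X2 - s).toNat = (m + 1) + 2 * j := by omega
    rw [e2] at hroot ⊢
    have par : (s + ((m + 1 : ℕ) : ℤ) + B.r) % 2 = if c0 then 0 else 1 := by
      rw [← hp]; push_cast; omega
    obtain ⟨k', hk', hv⟩ := val_long (a := -tau) (b := -tau ^ 2) (c := ctW θ B) j par
      (fun x h1 h2 => hr x (by push_cast at h1; omega) (by push_cast at h2; omega))
      (fun X h1 h2 => by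
        push_cast at h1 h2
        exact ⟨not_int_of (by omega) (by omega) hR.1, not_int_of (by omega) (by omega) hc.1⟩) hroot
    rw [← hv]
    obtain ⟨m', rfl⟩ : ∃ m' : ℕ, m = m' + 1 := ⟨m - 1, by omega⟩
    have par2 : (s + (m' : ℤ) + B.r) % 2 = if c0 then 0 else 1 := by rw [← hp]; omega
    have hS := seam_of (s := s) (m := m') (L := L) par2 (fun x h1 h2 => hr x (by omega) (by omega))
    rw [← end_lt] at hS
    have e3 : m' + 1 + 1 = m' + 2 := rfl
    rw [e3] at hk' ⊢
    have n1 : ¬ IntS ((lt (s, B.r)).1 + (m' : ℤ), (lt (s, B.r)).2 + (m' : ℤ)) (rtW B) := by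
      rw [end_lt]; exact not_int_of (by omega) (by omega) hR.1
    have n2 : ¬ IntS ((lt (s, B.r)).1 + (m' : ℤ), (lt (s, B.r)).2 + (m' : ℤ)) (ctW θ B) := by
      rw [end_lt]; exact not_int_of (by omega) (by omega) hc.1
    exact seam_sum1 (t := lt (s, B.r)) (m := m') (R := (rtW B, c0)) (c := ctW θ B)
      (G := srow (lt (s, B.r)) (m' + 1) ∪ L) tau_ab.1 tau_ab.2 (lt_odd _) hdco (hdis _ le_rfl)
      (Finset.Subset.refl _) hS hk' n1 n2

end Pool.Agent.H43.W
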