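import Mathlib

set_option autoImplicit false

/-! # Graph with arcs between names = graph on the names

`G` any graph, `X : ν → α` names (injective on `ok`), arcs `A` on the names. The connections between
names in `G ⊔ arcs` are the connections in the graph on `ν` with edges `G.Reachable (X a) (X b)` and `A`. -/

namespace Pool.Agent.H43.W

variable {α ν : Type*}

/-- the arcs as edges between the corners -/
def AX (ok : ν → Prop) (A : ν → ν → Prop) (X : ν → α) : SimpleGraph α :=
  SimpleGraph.fromRel fun u v => ∃ a b, ok a ∧ ok b ∧ A a b ∧ u = X a ∧ v = X b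

/-- the graph on the names -/
def NG (ok : ν → Prop) (ρ A : ν → ν → Prop) : SimpleGraph ν :=
  SimpleGraph.fromRel fun a b => ok a ∧ ok b ∧ (ρ a b ∨ A a b)

lemma NG_adj {ok : ν → Prop} {ρ A : ν → ν → Prop} {a b : ν} : (NG ok ρ A).Adj a b ↔
    a ≠ b ∧ ((ok a ∧ ok b ∧ (ρ a b ∨ A a b)) ∨ (ok b ∧ ok a ∧ (ρ b a ∨ A b a))) := by
  rw [NG, SimpleGraph.fromRel_adj]

lemma AX_adj {ok : ν → Prop} {A : ν → ν → Prop} {X : ν → α} {u v : α} : (AX ok A X).Adj u v ↔
    u ≠ v ∧ ((∃ a b, ok a ∧ ok b ∧ A a b ∧ u = X a ∧ v = X b) ∨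
      (∃ a b, ok a ∧ ok b ∧ A a b ∧ v = X a ∧ u = X b)) := by
  rw [AX, SimpleGraph.fromRel_adj]

/-- **Connections between names.** -/
theorem reach_names {G : SimpleGraph α} {ok : ν → Prop} {A : ν → ν → Prop} {X : ν → α}
    (inj : ∀ a b, ok a → ok b → X a = X b → a = b) {a b : ν} (ha : ok a) (hb : ok b) :
    (G ⊔ AX ok A X).Reachable (X a) (X b) ↔
      (NG ok (fun i j => G.Reachable (X i) (X j)) A).Reachable a b := by
  constructor
  · intro h
    have key : ∀ v, (G ⊔ AX ok A X).Reachable (X a) v → ∃ c, ok c ∧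
        (NG ok (fun i j => G.Reachable (X i) (X j)) A).Reachable a c ∧ G.Reachable (X c) v := by
      intro v hv
      rw [SimpleGraph.reachable_iff_reflTransGen] at hv
      induction hv with
      | refl => exact ⟨a, ha, SimpleGraph.Reachable.refl _, SimpleGraph.Reachable.refl _⟩
      | @tail u w _ hadj ih =>
        obtain ⟨c, hc, h1, h2⟩ := ih
        rcases hadj with hadj | hadj
        · exact ⟨c, hc, h1, h2.trans hadj.reachable⟩
        · obtain ⟨hne, h3⟩ := AX_adj.1 hadj
          have key2 : ∀ d e, ok d → ok e → (A d e ∨ A e d) → u = X d → w = X e →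
              ∃ c, ok c ∧ (NG ok (fun i j => G.Reachable (X i) (X j)) A).Reachable a c ∧
                G.Reachable (X c) w := by
            intro d e hd he hA hu hw
            subst hu; subst hw
            refine ⟨e, he, ?_, SimpleGraph.Reachable.refl _⟩
            have r1 : (NG ok (fun i j => G.Reachable (X i) (X j)) A).Reachable c d := by
              by_cases hcd : c = d
              · subst hcd; exact SimpleGraph.Reachable.refl _
              · exact SimpleGraph.Adj.reachable (NG_adj.2 ⟨hcd, Or.inl ⟨hc, hd, Or.inl h2⟩⟩)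
            have r2 : (NG ok (fun i j => G.Reachable (X i) (X j)) A).Reachable d e := by
              by_cases hde : d = e
              · subst hde; exact SimpleGraph.Reachable.refl _
              · refine SimpleGraph.Adj.reachable (NG_adj.2 ⟨hde, ?_⟩)
                rcases hA with hA | hA
                · exact Or.inl ⟨hd, he, Or.inr hA⟩
                · exact Or.inr ⟨he, hd, Or.inr hA⟩
            exact h1.trans (r1.trans r2)
          rcases h3 with ⟨d, e, hd, he, hA, hu, hw⟩ | ⟨d, e, hd, he, hA, hw, hu⟩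
          · exact key2 d e hd he (Or.inl hA) hu hw
          · exact key2 e d he hd (Or.inr hA) hu hw
    obtain ⟨c, hc, h1, h2⟩ := key _ h
    by_cases hcb : c = b
    · subst hcb; exact h1
    · exact h1.trans (SimpleGraph.Adj.reachable (NG_adj.2 ⟨hcb, Or.inl ⟨hc, hb, Or.inl h2⟩⟩))
  · intro h
    rw [SimpleGraph.reachable_iff_reflTransGen] at h
    clear hb
    induction h with
    | refl => exact SimpleGraph.Reachable.refl _
    | @tail c d _ hadj ih =>
      obtain ⟨hne, h3⟩ := NG_adj.1 hadj
      refine ih.trans ?_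
      have hX : ∀ {c d : ν}, c ≠ d → ok c → ok d → X c ≠ X d := fun hcd hc hd e => hcd (inj _ _ hc hd e)
      rcases h3 with ⟨hc, hd, h | h⟩ | ⟨hd, hc, h | h⟩
      · exact h.mono le_sup_left
      · exact SimpleGraph.Adj.reachable (Or.inr (AX_adj.2 ⟨hX hne hc hd, Or.inl ⟨c, d, hc, hd, h, rfl, rfl⟩⟩))
      · exact (h.mono le_sup_left).symm
      · exact SimpleGraph.Adj.reachable (Or.inr (AX_adj.2 ⟨hX hne hc hd, Or.inr ⟨d, c, hd, hc, h, rfl, rfl⟩⟩))

end Pool.Agent.H43.W
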